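import Mathlib

set_option autoImplicit false

namespace Pool.Agent.H56.Hofstadter

open Finset

/-- The Hofstadter consecutive-sum sequence. -/
def IsHof (a : ℕ → ℕ) : Prop :=
  a 1 = 1 ∧ a 2 = 2 ∧
    ∀ n : ℕ, 3 ≤ n →
      IsLeast {m : ℕ | a (n - 1) < m ∧
        ∃ i j : ℕ, 1 ≤ i ∧ i < j ∧ j < n ∧ m = ∑ k ∈ Finset.Icc i j, a k} (a n)

variable {a : ℕ → ℕ}

theorem IsHof.lt_succ (ha : IsHof a) (n : ℕ) (hn : 1 ≤ n) : a n < a (n + 1) := by
  obtain ⟨h1, h2, h3⟩ := ha
  rcases Nat.lt_or_ge n 2 with h | h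
  · have : n = 1 := by omega
    subst this
    simp [h1, h2]
  · have := (h3 (n + 1) (by omega)).1
    simpa using this.1

theorem IsHof.lt_of_lt (ha : IsHof a) {m n : ℕ} (hm : 1 ≤ m) (hmn : m < n) : a m < a n := by
  induction n, hmn using Nat.le_induction with
  | base => exact ha.lt_succ m hm
  | succ k hk ih => exact ih.trans (ha.lt_succ k (by omega))

theorem IsHof.le_of_le (ha : IsHof a) {m n : ℕ} (hm : 1 ≤ m) (hmn : m ≤ n) : a m ≤ a n := by
  rcases hmn.eq_or_lt with h | h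
  · rw [h]
  · exact (ha.lt_of_lt hm h).le

theorem IsHof.lt_iff (ha : IsHof a) {m n : ℕ} (hm : 1 ≤ m) (hn : 1 ≤ n) : a m < a n ↔ m < n := by
  constructor
  · intro h
    by_contra hc
    exact absurd (ha.le_of_le hn (not_lt.mp hc)) (not_le.mpr h)
  · exact ha.lt_of_lt hm

theorem IsHof.self_le (ha : IsHof a) (n : ℕ) (hn : 1 ≤ n) : n ≤ a n := by
  induction n, hn using Nat.le_induction with
  | base => simp [ha.1]
  | succ k hk ih => have := ha.lt_succ k hk; omega

/-- The sum of the terms `a_i..a_j` with all terms at most `X` is at most `X(X+1)/2`. -/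
theorem IsHof.two_mul_sum_le (ha : IsHof a) (i j X : ℕ) (hi : 1 ≤ i) (hX : ∀ k ∈ Icc i j, a k ≤ X) :
    2 * ∑ k ∈ Icc i j, a k ≤ X * (X + 1) := by
  have hinj : Set.InjOn a (Icc i j : Finset ℕ) := by
    intro x hx y hy hxy
    simp only [coe_Icc, Set.mem_Icc] at hx hy
    by_contra hne
    rcases lt_or_gt_of_ne hne with h | h
    · exact absurd hxy (ha.lt_of_lt (by omega) h).ne
    · exact absurd hxy (ha.lt_of_lt (by omega) h).ne'
  have h1 : ∑ k ∈ Icc i j, a k = ∑ x ∈ (Icc i j).image a, x := by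
    rw [sum_image hinj]
  have h2 : (Icc i j).image a ⊆ range (X + 1) := by
    intro x hx
    obtain ⟨k, hk, rfl⟩ := mem_image.mp hx
    exact mem_range.mpr (Nat.lt_succ_of_le (hX k hk))
  have h3 : ∑ x ∈ (Icc i j).image a, x ≤ ∑ x ∈ range (X + 1), x := sum_le_sum_of_subset h2
  have h4 := Finset.sum_range_id_mul_two (X + 1)
  rw [h1]
  have h5 : (X + 1) * (X + 1 - 1) = X * (X + 1) := by
    rw [Nat.add_sub_cancel]; ring
  rw [h5] at h4
  linarith

/-- Sum of an arithmetic progression with difference one. -/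
theorem two_mul_sum_ap (u d : ℕ) : 2 * ∑ k ∈ range (d + 1), (u + k) = (d + 1) * (2 * u + d) := by
  induction d with
  | zero => simp
  | succ d ih => rw [sum_range_succ, mul_add, ih]; ring

/-- If all integers in `(X, Y]` are terms, then past `X` the sequence steps by one. -/
theorem IsHof.step (ha : IsHof a) {X Y : ℕ} (hall : ∀ N, X < N → N ≤ Y → ∃ n, 1 ≤ n ∧ a n = N)
    {k : ℕ} (hk : 1 ≤ k) (hX : X ≤ a k) (hY : a (k + 1) ≤ Y) : a (k + 1) = a k + 1 := by
  have h1 := ha.lt_succ k hk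
  obtain ⟨n, hn, hn2⟩ := hall (a k + 1) (by omega) (by omega)
  have h2 : k < n := (ha.lt_iff hk hn).mp (by omega)
  have h3 : a (k + 1) ≤ a n := ha.le_of_le (by omega) h2
  omega

theorem IsHof.step_many (ha : IsHof a) {X Y : ℕ}
    (hall : ∀ N, X < N → N ≤ Y → ∃ n, 1 ≤ n ∧ a n = N)
    {k : ℕ} (hk : 1 ≤ k) (hX : X ≤ a k) (d : ℕ) (hY : a (k + d) ≤ Y) : a (k + d) = a k + d := by
  induction d with
  | zero => simp
  | succ d ih =>
    have h1 : a (k + d) ≤ Y := (ha.le_of_le (by omega) (by omega)).trans hY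
    have h2 := ih h1
    have h3 := ha.step hall (k := k + d) (by omega) (by omega) hY
    rw [← add_assoc, h3, h2]
    ring

theorem odd_dvd_two_pow {d t : ℕ} (hd : Odd d) (h : d ∣ 2 ^ t) : d = 1 := by
  obtain ⟨k, hk, rfl⟩ := (Nat.dvd_prime_pow Nat.prime_two).mp h
  rcases Nat.eq_zero_or_pos k with h0 | h0
  · simp [h0]
  · exact absurd hd (Nat.not_odd_iff_even.mpr ((even_two).pow_of_ne_zero h0.ne'))

/-- **Gap lemma.** For `e ≥ 1` some integer in `(2^e, 2^(4e+1)]` is not a term. -/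
theorem IsHof.gap (ha : IsHof a) (e : ℕ) (he : 1 ≤ e) :
    ∃ N, 2 ^ e < N ∧ N ≤ 2 ^ (4 * e + 1) ∧ ∀ n, 1 ≤ n → a n ≠ N := by
  by_contra hcon
  push Not at hcon
  set X : ℕ := 2 ^ e with hXdef
  set Y : ℕ := 2 ^ (4 * e + 1) with hYdef
  have hX2 : 2 ≤ X := by
    calc 2 = 2 ^ 1 := by norm_num
      _ ≤ 2 ^ e := Nat.pow_le_pow_right (by norm_num) he
  have hYX : Y = 2 * X ^ 4 := by
    rw [hYdef, hXdef, ← pow_mul, pow_succ]; ring
  have hall : ∀ N, X < N → N ≤ Y → ∃ n, 1 ≤ n ∧ a n = N := fun N h1 h2 => hcon N h1 h2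
  have hXY : X * (X + 1) < Y := by
    rw [hYX]
    have e1 : X * (X + 1) ≤ 2 * X ^ 2 := by nlinarith
    have e2 : X ^ 2 * 4 ≤ X ^ 4 := by
      have : 4 ≤ X ^ 2 := by nlinarith
      calc X ^ 2 * 4 ≤ X ^ 2 * X ^ 2 := Nat.mul_le_mul_left _ this
        _ = X ^ 4 := by ring
    have e3 : 0 < X ^ 2 := by positivity
    omega
  have hXltY : X < Y := by nlinarith
  -- Y is a term
  obtain ⟨n, hn1, hnY⟩ := hall Y hXltY le_rfl
  have hn3 : 3 ≤ n := by
    by_contra hlt
    have : n = 1 ∨ n = 2 := by omega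
    rcases this with h | h
    · rw [h, ha.1] at hnY; omega
    · rw [h, ha.2.1] at hnY; omega
  obtain ⟨-, i, j, hi, hij, hjn, hsum⟩ := (ha.2.2 n hn3).1
  rw [hnY] at hsum
  -- all terms in the sum are at most Y
  have hterm : ∀ k ∈ Icc i j, a k ≤ Y := by
    intro k hk
    rw [hsum]
    exact single_le_sum (f := a) (fun _ _ => Nat.zero_le _) hk
  have hjY : a j ≤ Y := hterm j (mem_Icc.mpr ⟨hij.le, le_rfl⟩)
  rcases Nat.lt_or_ge X (a i) with hiX | hiX
  · -- the sum consists of consecutive integers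
    obtain ⟨d, rfl⟩ : ∃ d, j = i + d := ⟨j - i, by omega⟩
    have hstep : ∀ k ∈ range (d + 1), a (i + k) = a i + k := by
      intro k hk
      have hk' : k ≤ d := Nat.lt_succ_iff.mp (mem_range.mp hk)
      exact ha.step_many hall hi hiX.le k ((ha.le_of_le (by omega) (by omega)).trans hjY)
    have hs : ∑ k ∈ Icc i (i + d), a k = ∑ k ∈ range (d + 1), (a i + k) := by
      rw [← Finset.sum_congr rfl hstep]
      rw [← Finset.Ico_add_one_right_eq_Icc, Finset.sum_Ico_eq_sum_range]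
      congr 1
      congr 1
      omega
    have h2 : 2 ^ (4 * e + 2) = (d + 1) * (2 * a i + d) := by
      rw [← two_mul_sum_ap, ← hs, ← hsum, hYdef]; ring
    rcases Nat.even_or_odd d with hd | hd
    · have := odd_dvd_two_pow (t := 4 * e + 2) (d := d + 1) (by
        exact hd.add_one) ⟨_, h2⟩
      omega
    · have := odd_dvd_two_pow (t := 4 * e + 2) (d := 2 * a i + d) (by
        exact (even_two_mul _).add_odd hd) ⟨d + 1, by rw [h2]; ring⟩
      omega
  · -- the sum starts at or below X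
    rcases Nat.lt_or_ge X (a j) with hjX | hjX
    · -- find the index p of X+1
      obtain ⟨p, hp1, hpX⟩ := hall (X + 1) (by omega) (by omega)
      have hip : i < p := (ha.lt_iff hi hp1).mp (by omega)
      have hpj : p ≤ j := by
        by_contra hc
        have := ha.lt_of_lt (show 1 ≤ j by omega) (not_le.mp hc)
        omega
      obtain ⟨d, rfl⟩ : ∃ d, j = p + d := ⟨j - p, by omega⟩
      have hstep : ∀ k ∈ range (d + 1), a (p + k) = a p + k := by
        intro k hk
        have hk' : k ≤ d := Nat.lt_succ_iff.mp (mem_range.mp hk)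
        exact ha.step_many hall hp1 (by omega) k ((ha.le_of_le (by omega) (by omega)).trans hjY)
      have hs : ∑ k ∈ Icc p (p + d), a k = ∑ k ∈ range (d + 1), (a p + k) := by
        rw [← Finset.sum_congr rfl hstep]
        rw [← Finset.Ico_add_one_right_eq_Icc, Finset.sum_Ico_eq_sum_range]
        congr 1
        congr 1
        omega
      have hsplit : ∑ k ∈ Icc i (p + d), a k
          = ∑ k ∈ Icc i (p - 1), a k + ∑ k ∈ Icc p (p + d), a k := by
        rw [← Finset.Ico_add_one_right_eq_Icc, ← Finset.Ico_add_one_right_eq_Icc,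
          ← Finset.Ico_add_one_right_eq_Icc]
        have : p - 1 + 1 = p := by omega
        rw [this]
        rw [Finset.sum_Ico_consecutive] <;> omega
      have hD := ha.two_mul_sum_le i (p - 1) X hi (by
        intro k hk
        have hk' := mem_Icc.mp hk
        have := ha.lt_of_lt (show 1 ≤ k by omega) (show k < p by omega)
        omega)
      have hDpos : 1 ≤ ∑ k ∈ Icc i (p - 1), a k := by
        have h5 : a i ≤ ∑ k ∈ Icc i (p - 1), a k :=
          single_le_sum (f := a) (fun _ _ => Nat.zero_le _) (mem_Icc.mpr ⟨le_rfl, by omega⟩)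
        have h6 := ha.self_le i hi
        omega
      set D := ∑ k ∈ Icc i (p - 1), a k with hDdef
      have h2 := two_mul_sum_ap (a p) d
      rw [← hs] at h2
      have h3 : 2 * Y = 2 * D + (d + 1) * (2 * (X + 1) + d) := by
        rw [hsum, hsplit, mul_add, h2, hpX]
      -- (2v+1)^2 with v = X + 1 + d
      have h4 : 8 * Y + (2 * X + 1) ^ 2 = 8 * D + (2 * (X + 1 + d) + 1) ^ 2 := by
        have e1 : 8 * Y = 4 * (2 * Y) := by ring
        rw [e1, h3]; ring
      -- 8Y = R^2, R = 4 X^2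
      have h5 : 8 * Y = (4 * X ^ 2) ^ 2 := by rw [hYX]; ring
      obtain ⟨R, hR⟩ : ∃ R, R = 4 * X ^ 2 := ⟨_, rfl⟩
      obtain ⟨W, hW⟩ : ∃ W, W = 2 * (X + 1 + d) + 1 := ⟨_, rfl⟩
      rw [← hR] at h5
      rw [← hW, h5] at h4
      have e2 : (2 * X + 1) ^ 2 = 4 * X ^ 2 + 4 * X + 1 := by ring
      have e3 : X * (X + 1) = X ^ 2 + X := by ring
      rw [e2] at h4
      rw [e3] at hD
      have h6 : R < W := by
        by_contra hc
        have : W ^ 2 ≤ R ^ 2 := Nat.pow_le_pow_left (not_lt.mp hc) 2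
        omega
      have h7 : (R + 1) ^ 2 ≤ W ^ 2 := Nat.pow_le_pow_left h6 2
      have e4 : (R + 1) ^ 2 = R ^ 2 + 2 * R + 1 := by ring
      rw [e4] at h7
      have h8 : 2 * X ≤ X ^ 2 := by rw [pow_two]; exact Nat.mul_le_mul_right X hX2
      omega
    · -- the whole sum is below X
      have := ha.two_mul_sum_le i j X hi (by
        intro k hk
        have hk' := mem_Icc.mp hk
        exact (ha.le_of_le (by omega) hk'.2).trans hjX)
      rw [← hsum] at this
      omega

/-- The exponents `1, 5, 21, ...`. -/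
def ee : ℕ → ℕ
  | 0 => 1
  | k + 1 => 4 * ee k + 1

theorem ee_pos (k : ℕ) : 1 ≤ ee k := by
  cases k <;> simp [ee]

theorem three_ee (k : ℕ) : 3 * ee k + 1 = 4 ^ (k + 1) := by
  induction k with
  | zero => rfl
  | succ k ih => rw [ee, pow_succ, ← ih]; ring

theorem IsHof.missing (ha : IsHof a) (k : ℕ) :
    ∃ S : Finset ℕ, S.card = k ∧ ∀ N ∈ S, 1 ≤ N ∧ N ≤ 2 ^ ee k ∧ ∀ n, 1 ≤ n → a n ≠ N := by
  induction k with
  | zero => exact ⟨∅, by simp, by simp⟩
  | succ k ih =>
    obtain ⟨S, hS, hS2⟩ := ih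
    obtain ⟨N, h1, h2, h3⟩ := ha.gap (ee k) (ee_pos k)
    have hN : N ∉ S := by
      intro h
      have := (hS2 N h).2.1
      omega
    refine ⟨insert N S, by rw [card_insert_of_notMem hN, hS], ?_⟩
    intro M hM
    rcases mem_insert.mp hM with h | h
    · subst h
      exact ⟨Nat.one_le_two_pow.trans h1.le, by simpa [ee] using h2, h3⟩
    · obtain ⟨g1, g2, g3⟩ := hS2 M h
      refine ⟨g1, g2.trans (Nat.pow_le_pow_right (by norm_num) ?_), g3⟩
      simp only [ee]; omega

theorem IsHof.count (ha : IsHof a) (k n : ℕ) (hn : 2 ^ ee k ≤ n) : n + k ≤ a n := by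
  obtain ⟨S, hS, hS2⟩ := ha.missing k
  have hn1 : 1 ≤ n := le_trans Nat.one_le_two_pow hn
  have hdisj : Disjoint ((Icc 1 n).image a) S := by
    rw [Finset.disjoint_left]
    intro x hx hxS
    obtain ⟨m, hm, rfl⟩ := mem_image.mp hx
    exact (hS2 _ hxS).2.2 m (mem_Icc.mp hm).1 rfl
  have hsub : ((Icc 1 n).image a) ∪ S ⊆ Icc 1 (a n) := by
    intro x hx
    rcases mem_union.mp hx with h | h
    · obtain ⟨m, hm, rfl⟩ := mem_image.mp h
      have hm' := mem_Icc.mp hm
      exact mem_Icc.mpr ⟨hm'.1.trans (ha.self_le m hm'.1), ha.le_of_le hm'.1 hm'.2⟩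
    · obtain ⟨g1, g2, -⟩ := hS2 x h
      exact mem_Icc.mpr ⟨g1, g2.trans (hn.trans (ha.self_le n hn1))⟩
  have hinj : Set.InjOn a (Icc 1 n : Finset ℕ) := by
    intro x hx y hy hxy
    simp only [coe_Icc, Set.mem_Icc] at hx hy
    by_contra hne
    rcases lt_or_gt_of_ne hne with h | h
    · exact absurd hxy (ha.lt_of_lt (by omega) h).ne
    · exact absurd hxy (ha.lt_of_lt (by omega) h).ne'
  have := card_le_card hsub
  rw [card_union_of_disjoint hdisj, card_image_of_injOn hinj, Nat.card_Icc, Nat.card_Icc, hS] at this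
  omega

theorem IsHof.lower (ha : IsHof a) (n : ℕ) (hn : 2 ≤ n) :
    (n : ℝ) + Real.log (Real.log n) / Real.log 4 - 1 < a n := by
  classical
  have hex : ∃ k, n < 2 ^ ee (k + 1) := by
    refine ⟨n, ?_⟩
    have h1 : n < 2 ^ n := Nat.lt_two_pow_self
    refine h1.trans_le (Nat.pow_le_pow_right (by norm_num) ?_)
    have h2 : ∀ m, m ≤ ee m := by
      intro m
      induction m with
      | zero => simp
      | succ m ih => simp only [ee]; omega
    exact (Nat.le_succ n).trans (h2 (n + 1))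
  obtain ⟨k, hk, hmin⟩ : ∃ k, n < 2 ^ ee (k + 1) ∧ ∀ j < k, ¬ n < 2 ^ ee (j + 1) :=
    ⟨Nat.find hex, Nat.find_spec hex, fun j hj => Nat.find_min hex hj⟩
  have hle : 2 ^ ee k ≤ n := by
    rcases k with _ | k
    · simpa [ee] using hn
    · exact not_lt.mp (hmin k (Nat.lt_succ_self k))
  have hcount : ((n + k : ℕ) : ℝ) ≤ (a n : ℝ) := by exact_mod_cast ha.count k n hle
  push_cast at hcount
  have hlog : Real.log (Real.log n) / Real.log 4 < (k : ℝ) + 1 := by
    have h4 : 0 < Real.log 4 := Real.log_pos (by norm_num)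
    rw [div_lt_iff₀ h4]
    have hn1 : (1 : ℝ) < n := by exact_mod_cast (by omega : 1 < n)
    have hl0 : 0 < Real.log n := Real.log_pos hn1
    have h5 : Real.log n < (ee (k + 1) : ℝ) * Real.log 2 := by
      rw [← Real.log_pow]
      apply Real.log_lt_log (by linarith)
      exact_mod_cast hk
    have h6 : (3 : ℝ) * ee (k + 1) + 1 = 4 ^ (k + 2) := by
      exact_mod_cast three_ee (k + 1)
    have h7 : Real.log 2 < 0.75 := by
      have := Real.log_two_lt_d9; linarith
    have h8 : Real.log n < 4 ^ (k + 1) := by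
      have h9 : (4 : ℝ) ^ (k + 2) = 4 * 4 ^ (k + 1) := by ring
      have h10 : (0 : ℝ) < ee (k + 1) := by exact_mod_cast ee_pos (k + 1)
      nlinarith
    calc Real.log (Real.log n) < Real.log (4 ^ (k + 1)) := Real.log_lt_log hl0 h8
      _ = ((k : ℝ) + 1) * Real.log 4 := by rw [Real.log_pow]; push_cast; ring
  linarith

end Pool.Agent.H56.Hofstadter
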