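import Mathlib

/-!
# Splitting intersecting families into 2-intersecting families: basic tools

`Cov S k` : the finite sets satisfying `S` can be split into `k` classes such that two distinct
members of the same class share at least two points.
-/

set_option autoImplicit false

namespace Pool.Agent.H56.KK

open Finset

variable {V : Type*} [DecidableEq V]

/-- The sets satisfying `S` split into `k` classes, each of them 2-intersecting. -/
def Cov (S : Finset V → Prop) (k : ℕ) : Prop :=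
  ∃ f : Finset V → ℕ, (∀ A, S A → f A < k) ∧
    ∀ A B, S A → S B → A ≠ B → f A = f B → 2 ≤ (A ∩ B).card

theorem Cov.mono {S T : Finset V → Prop} {k l : ℕ} (h : Cov S k) (hTS : ∀ A, T A → S A)
    (hkl : k ≤ l) : Cov T l := by
  obtain ⟨f, h1, h2⟩ := h
  exact ⟨f, fun A hA => lt_of_lt_of_le (h1 A (hTS A hA)) hkl,
    fun A B hA hB => h2 A B (hTS A hA) (hTS B hB)⟩

theorem Cov.union {S T : Finset V → Prop} {k l : ℕ} (h : Cov S k) (h' : Cov T l) :
    Cov (fun A => S A ∨ T A) (k + l) := by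
  classical
  obtain ⟨f, h1, h2⟩ := h
  obtain ⟨g, g1, g2⟩ := h'
  refine ⟨fun A => if S A then f A else k + g A, ?_, ?_⟩
  · intro A hA
    by_cases hS : S A
    · simp only [hS, if_true]; have := h1 A hS; omega
    · simp only [hS, if_false]
      have := g1 A (hA.resolve_left hS); omega
  · intro A B hA hB hne hf
    by_cases hSA : S A <;> by_cases hSB : S B
    · simp only [hSA, hSB, if_true] at hf
      exact h2 A B hSA hSB hne hf
    · simp only [hSA, hSB, if_true, if_false] at hf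
      have := h1 A hSA; omega
    · simp only [hSA, hSB, if_true, if_false] at hf
      have := h1 B hSB; omega
    · simp only [hSA, hSB, if_false] at hf
      exact g2 A B (hA.resolve_left hSA) (hB.resolve_left hSB) hne (by omega)

theorem Cov.empty {S : Finset V → Prop} (h : ∀ A, ¬ S A) (k : ℕ) : Cov S k :=
  ⟨fun _ => 0, fun A hA => absurd hA (h A), fun A _ hA => absurd hA (h A)⟩

theorem Cov.one {S : Finset V → Prop}
    (h : ∀ A B, S A → S B → A ≠ B → 2 ≤ (A ∩ B).card) : Cov S 1 :=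
  ⟨fun _ => 0, fun _ _ => Nat.one_pos, fun A B hA hB hne _ => h A B hA hB hne⟩

theorem two_le_inter {A B : Finset V} {x y : V} (hxy : x ≠ y) (h1 : x ∈ A) (h2 : y ∈ A)
    (h3 : x ∈ B) (h4 : y ∈ B) : 2 ≤ (A ∩ B).card := by
  have : ({x, y} : Finset V) ⊆ A ∩ B := by
    intro z hz
    simp only [mem_insert, mem_singleton] at hz
    rcases hz with rfl | rfl
    · exact mem_inter.2 ⟨h1, h3⟩
    · exact mem_inter.2 ⟨h2, h4⟩
  calc 2 = ({x, y} : Finset V).card := (card_pair hxy).symm
    _ ≤ _ := card_le_card this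

theorem Cov.pair {x y : V} (hxy : x ≠ y) : Cov (fun A => x ∈ A ∧ y ∈ A) 1 :=
  Cov.one fun _ _ hA hB _ => two_le_inter hxy hA.1 hA.2 hB.1 hB.2

theorem Cov.star {x : V} (T : Finset V) (hx : x ∉ T) :
    Cov (fun A => x ∈ A ∧ ∃ y ∈ T, y ∈ A) T.card := by
  induction T using Finset.induction_on with
  | empty => exact Cov.empty (fun A hA => by simpa using hA.2) _
  | insert a s ha ih =>
    have hx' : x ∉ s := fun h => hx (mem_insert_of_mem h)
    have hxa : x ≠ a := fun h => hx (h ▸ mem_insert_self _ _)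
    refine ((Cov.pair hxa).union (ih hx')).mono ?_ (by rw [card_insert_of_notMem ha]; omega)
    rintro A ⟨h1, y, hy, hyA⟩
    rcases mem_insert.1 hy with rfl | hy
    · exact Or.inl ⟨h1, hyA⟩
    · exact Or.inr ⟨h1, y, hy, hyA⟩

/-- Finite unions. -/
theorem Cov.bUnion {ι : Type*} [DecidableEq ι] (I : Finset ι) (S : ι → Finset V → Prop)
    (k : ι → ℕ) (h : ∀ i ∈ I, Cov (S i) (k i)) :
    Cov (fun A => ∃ i ∈ I, S i A) (∑ i ∈ I, k i) := by
  induction I using Finset.induction_on with
  | empty => exact Cov.empty (fun A hA => by simpa using hA) _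
  | insert a s ha ih =>
    refine ((h a (mem_insert_self _ _)).union
      (ih fun i hi => h i (mem_insert_of_mem hi))).mono ?_ (by rw [sum_insert ha])
    rintro A ⟨i, hi, hA⟩
    rcases mem_insert.1 hi with rfl | hi
    · exact Or.inl hA
    · exact Or.inr ⟨i, hi, hA⟩

/-- Star version of Kneser's colouring. -/
theorem Cov.kneser {x : V} (s : ℕ) (hs : 1 ≤ s) :
    ∀ (w : ℕ) (W : Finset V), W.card = w → x ∉ W →
      Cov (fun A => x ∈ A ∧ s ≤ (A ∩ W).card) (max 1 (w + 2 - 2 * s)) := by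
  intro w
  induction w with
  | zero =>
    intro W hW _
    refine Cov.empty (fun A hA => ?_) _
    rw [card_eq_zero] at hW
    subst hW
    simp at hA
    omega
  | succ w ih =>
    intro W hW hx
    by_cases hws : w + 1 < 2 * s
    · refine (Cov.one ?_).mono (fun A hA => hA) (le_max_left _ _)
      rintro A B ⟨hxA, hA⟩ ⟨hxB, hB⟩ _
      have h1 : ((A ∩ W) ∩ (B ∩ W)).Nonempty := by
        rw [← card_pos]
        have h2 := card_union_add_card_inter (A ∩ W) (B ∩ W)
        have h3 : ((A ∩ W) ∪ (B ∩ W)).card ≤ W.card :=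
          card_le_card (union_subset inter_subset_right inter_subset_right)
        omega
      obtain ⟨y, hy⟩ := h1
      simp only [mem_inter] at hy
      have hxy : x ≠ y := by
        rintro rfl
        exact hx hy.1.2
      exact two_le_inter hxy hxA hy.1.1 hxB hy.2.1
    · have hne : W.Nonempty := card_pos.1 (by omega)
      obtain ⟨y, hy⟩ := hne
      have hxy : x ≠ y := fun h => hx (h ▸ hy)
      have := ih (W.erase y) (by rw [card_erase_of_mem hy, hW]; rfl)
        (fun h => hx (mem_of_mem_erase h))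
      refine ((Cov.pair hxy).union this).mono ?_ (by omega)
      rintro A ⟨hxA, hA⟩
      by_cases hyA : y ∈ A
      · exact Or.inl ⟨hxA, hyA⟩
      · refine Or.inr ⟨hxA, ?_⟩
        have : A ∩ W.erase y = A ∩ W := by
          ext z
          simp only [mem_inter, mem_erase]
          constructor
          · rintro ⟨h1, -, h2⟩; exact ⟨h1, h2⟩
          · rintro ⟨h1, h2⟩; exact ⟨h1, fun h => hyA (h ▸ h1), h2⟩
        rw [this]; exact hA

/-- Triangles. -/
theorem Cov.triangles :
    ∀ (k : ℕ) (W : Finset V), W.card ≤ 3 * k → Cov (fun A => k < (A ∩ W).card) W.card := by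
  intro k
  induction k with
  | zero =>
    intro W hW
    refine Cov.empty (fun A hA => ?_) _
    have : W = ∅ := card_eq_zero.1 (by omega)
    subst this
    simp at hA
  | succ k ih =>
    intro W hW
    by_cases h3 : 3 ≤ W.card
    · obtain ⟨T, hTW, hT⟩ := exists_subset_card_eq h3
      obtain ⟨x, y, z, hxy, hxz, hyz, rfl⟩ := card_eq_three.1 hT
      have hc : (W \ {x, y, z}).card = W.card - 3 := by
        rw [card_sdiff_of_subset hTW, hT]
      have := ih (W \ {x, y, z}) (by omega)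
      refine (((Cov.pair hxy).union ((Cov.pair hxz).union (Cov.pair hyz))).union this).mono
        ?_ (by omega)
      intro A hA
      by_cases h1 : x ∈ A ∧ y ∈ A
      · exact Or.inl (Or.inl h1)
      by_cases h2 : x ∈ A ∧ z ∈ A
      · exact Or.inl (Or.inr (Or.inl h2))
      by_cases h4 : y ∈ A ∧ z ∈ A
      · exact Or.inl (Or.inr (Or.inr h4))
      right
      have h5 : (A ∩ {x, y, z}).card ≤ 1 := by
        rw [card_le_one]
        intro a ha b hb
        simp only [mem_inter, mem_insert, mem_singleton] at ha hb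
        obtain ⟨ha1, rfl | rfl | rfl⟩ := ha <;> obtain ⟨hb1, rfl | rfl | rfl⟩ := hb <;>
          first | rfl | (exfalso; tauto)
      have h6 : (A ∩ W).card ≤ (A ∩ {x, y, z}).card + (A ∩ (W \ {x, y, z})).card := by
        refine le_trans (card_le_card ?_) (card_union_le _ _)
        intro a ha
        simp only [mem_inter, mem_union, mem_sdiff] at ha ⊢
        tauto
      omega
    · by_cases h2 : W.card = 2
      · obtain ⟨x, y, hxy, rfl⟩ := card_eq_two.1 h2
        refine (Cov.pair hxy).mono ?_ (by omega)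
        intro A hA
        have h3 : (A ∩ {x, y}) = {x, y} := by
          refine eq_of_subset_of_card_le inter_subset_right ?_
          omega
        constructor
        · have : x ∈ A ∩ {x, y} := by rw [h3]; simp
          exact (mem_inter.1 this).1
        · have : y ∈ A ∩ {x, y} := by rw [h3]; simp
          exact (mem_inter.1 this).1
      · refine Cov.empty (fun A hA => ?_) _
        have : (A ∩ W).card ≤ W.card := card_le_card inter_subset_right
        omega

/-- Any two members share a point. -/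
def Int (H : Finset (Finset V)) : Prop := ∀ A ∈ H, ∀ B ∈ H, (A ∩ B).Nonempty

theorem Int.nonempty {H : Finset (Finset V)} (h : Int H) {A : Finset V} (hA : A ∈ H) :
    A.Nonempty := by
  have := h A hA A hA
  rwa [inter_self] at this

/-- **The certificate theorem.** -/
theorem cert {H : Finset (Finset V)} (hI : Int H) {A₀ : Finset V} (hA₀ : A₀ ∈ H)
    (C : V → Finset V) (hC : ∀ x ∈ A₀, C x ∈ H ∧ x ∉ C x) :
    Cov (fun A => A ∈ H) (∑ x ∈ A₀, ((C x).card - 1) + 1) := by
  classical
  -- smallest edges missing a given vertex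
  have hD : ∀ x, ∃ D : Finset V, x ∈ A₀ → (D ∈ H ∧ x ∉ D ∧ ∀ E ∈ H, x ∉ E → D.card ≤ E.card) := by
    intro x
    by_cases hx : x ∈ A₀
    · obtain ⟨D, hD1, hD2⟩ := exists_min_image (H.filter fun E => x ∉ E) (fun E => E.card)
        ⟨C x, mem_filter.2 (hC x hx)⟩
      rw [mem_filter] at hD1
      exact ⟨D, fun _ => ⟨hD1.1, hD1.2, fun E hE hxE => hD2 E (mem_filter.2 ⟨hE, hxE⟩)⟩⟩
    · exact ⟨∅, fun h => absurd h hx⟩
  choose D hD using hD
  have hDC : ∀ x ∈ A₀, (D x).card ≤ (C x).card := fun x hx =>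
    (hD x hx).2.2 _ (hC x hx).1 (hC x hx).2
  have hDpos : ∀ x ∈ A₀, 1 ≤ (D x).card := fun x hx => card_pos.2 (hI.nonempty (hD x hx).1)
  -- the arrow relation
  let R : V → V → Prop := fun x y => ∃ E ∈ H, x ∉ E ∧ y ∈ E ∧ E.card = (D x).card
  let closed : Finset V → Prop := fun Z => ∀ x ∈ Z, ∀ y ∈ A₀, R x y → y ∈ Z
  -- a smallest nonempty closed set
  obtain ⟨Z, hZ1, hZ2⟩ := exists_min_image
    (A₀.powerset.filter fun Z => Z.Nonempty ∧ closed Z) (fun Z => Z.card)
    ⟨A₀, mem_filter.2 ⟨mem_powerset.2 (Subset.refl _), hI.nonempty hA₀, fun _ _ y hy _ => hy⟩⟩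
  rw [mem_filter, mem_powerset] at hZ1
  obtain ⟨hZA, ⟨y₀, hy₀⟩, hZc⟩ := hZ1
  have hy₀A : y₀ ∈ A₀ := hZA hy₀
  -- every proper subset containing y₀ can be extended
  have hext : ∀ O ⊆ A₀, y₀ ∈ O → O ≠ A₀ → ∃ x ∈ A₀, x ∉ O ∧ ∃ y ∈ O, R x y := by
    intro O hO hyO hne
    by_contra hcon
    push Not at hcon
    have hNc : closed (A₀ \ O) := by
      intro x hx y hy hR
      rw [mem_sdiff] at hx ⊢
      exact ⟨hy, fun hyO' => hcon x hx.1 hx.2 y hyO' hR⟩
    have hNne : (A₀ \ O).Nonempty := by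
      rw [sdiff_nonempty]
      exact fun h => hne (Subset.antisymm hO h)
    have hdisj : (A₀ \ O) ∩ Z = ∅ := by
      by_contra hne2
      have h1 : ((A₀ \ O) ∩ Z).Nonempty := nonempty_iff_ne_empty.2 hne2
      have h2 : closed ((A₀ \ O) ∩ Z) := by
        intro x hx y hy hR
        rw [mem_inter] at hx ⊢
        exact ⟨hNc x hx.1 y hy hR, hZc x hx.2 y hy hR⟩
      have h3 := hZ2 ((A₀ \ O) ∩ Z) (mem_filter.2 ⟨mem_powerset.2
        (fun a ha => hZA (mem_inter.1 ha).2), h1, h2⟩)
      have h4 : ((A₀ \ O) ∩ Z) ⊂ Z := by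
        refine Finset.ssubset_iff_subset_ne.2 ⟨inter_subset_right, fun h => ?_⟩
        have : y₀ ∈ (A₀ \ O) ∩ Z := by rw [h]; exact hy₀
        rw [mem_inter, mem_sdiff] at this
        exact this.1.2 hyO
      have := card_lt_card h4
      omega
    have hdisj' : ∀ a, a ∈ A₀ → a ∉ O → a ∉ Z := by
      intro a ha haO haZ
      have : a ∈ (A₀ \ O) ∩ Z := mem_inter.2 ⟨mem_sdiff.2 ⟨ha, haO⟩, haZ⟩
      rw [hdisj] at this
      simp at this
    obtain ⟨z, hz⟩ := hNne
    have hz' := mem_sdiff.1 hz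
    -- D y₀ misses z
    have h1 : z ∉ D y₀ := by
      intro hzD
      exact hdisj' z hz'.1 hz'.2
        (hZc y₀ hy₀ z hz'.1 ⟨D y₀, (hD y₀ hy₀A).1, (hD y₀ hy₀A).2.1, hzD, rfl⟩)
    have h2 : y₀ ∉ D z := by
      intro hyD
      have := hNc z hz y₀ hy₀A ⟨D z, (hD z hz'.1).1, (hD z hz'.1).2.1, hyD, rfl⟩
      exact (mem_sdiff.1 this).2 hyO
    have h3 : (D z).card = (D y₀).card := le_antisymm
      ((hD z hz'.1).2.2 _ (hD y₀ hy₀A).1 h1) ((hD y₀ hy₀A).2.2 _ (hD z hz'.1).1 h2)
    obtain ⟨w, hw⟩ := hI (D y₀) (hD y₀ hy₀A).1 A₀ hA₀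
    rw [mem_inter] at hw
    have hwZ : w ∈ Z := hZc y₀ hy₀ w hw.2 ⟨D y₀, (hD y₀ hy₀A).1, (hD y₀ hy₀A).2.1, hw.1, rfl⟩
    have hwN : w ∈ A₀ \ O := hNc z hz w hw.2 ⟨D y₀, (hD y₀ hy₀A).1, h1, hw.1, h3.symm⟩
    rw [mem_sdiff] at hwN
    exact hdisj' w hwN.1 hwN.2 hwZ
  -- grow the covered part of A₀
  let P : Finset V → Prop := fun O => y₀ ∈ O ∧
    Cov (fun A => A ∈ H ∧ (A ∩ O).Nonempty) (∑ x ∈ O, ((D x).card - 1) + 1)
  have hbase : P {y₀} := by
    refine ⟨mem_singleton_self _, ?_⟩
    refine (Cov.star (D y₀) (hD y₀ hy₀A).2.1).mono ?_ ?_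
    · rintro A ⟨hA, z, hz⟩
      rw [mem_inter, mem_singleton] at hz
      obtain ⟨hz, rfl⟩ := hz
      obtain ⟨y, hy⟩ := hI A hA (D z) (hD z hy₀A).1
      rw [mem_inter] at hy
      exact ⟨hz, y, hy.2, hy.1⟩
    · rw [sum_singleton]
      have := hDpos y₀ hy₀A
      omega
  obtain ⟨O, hO1, hO2⟩ := exists_max_image (A₀.powerset.filter P) (fun O => O.card)
    ⟨{y₀}, mem_filter.2 ⟨mem_powerset.2 (singleton_subset_iff.2 hy₀A), hbase⟩⟩
  rw [mem_filter, mem_powerset] at hO1
  obtain ⟨hOA, hyO, hcov⟩ := hO1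
  have hOeq : O = A₀ := by
    by_contra hne
    obtain ⟨x, hxA, hxO, y, hyO', E, hE, hxE, hyE, hEc⟩ := hext O hOA hyO hne
    have hP : P (insert x O) := by
      refine ⟨mem_insert_of_mem hyO, ?_⟩
      have hst := Cov.star (x := x) (E.erase y) (fun h => hxE (mem_of_mem_erase h))
      refine (hst.union hcov).mono ?_ ?_
      · rintro A ⟨hA, z, hz⟩
        by_cases hAO : (A ∩ O).Nonempty
        · exact Or.inr ⟨hA, hAO⟩
        · left
          rw [mem_inter, mem_insert] at hz
          have hzx : z = x := by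
            rcases hz.2 with h | h
            · exact h
            · exact absurd ⟨z, mem_inter.2 ⟨hz.1, h⟩⟩ hAO
          subst hzx
          obtain ⟨u, hu⟩ := hI A hA E hE
          rw [mem_inter] at hu
          refine ⟨hz.1, u, mem_erase.2 ⟨fun h => ?_, hu.2⟩, hu.1⟩
          subst h
          exact hAO ⟨u, mem_inter.2 ⟨hu.1, hyO'⟩⟩
      · rw [sum_insert hxO, card_erase_of_mem hyE, hEc]
        omega
    have h1 := hO2 (insert x O) (mem_filter.2 ⟨mem_powerset.2
      (insert_subset hxA hOA), hP⟩)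
    rw [card_insert_of_notMem hxO] at h1
    omega
  subst hOeq
  refine hcov.mono (fun A hA => ⟨hA, hI A hA O hA₀⟩) ?_
  have : ∑ x ∈ O, ((D x).card - 1) ≤ ∑ x ∈ O, ((C x).card - 1) :=
    sum_le_sum fun x hx => by have := hDC x hx; omega
  omega

end Pool.Agent.H56.KK
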