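import Mathlib
import Pool.Agent.H56.KKBase

/-!
# Intersecting families with an edge of size at most three, and other sufficient conditions
-/

set_option autoImplicit false

namespace Pool.Agent.H56.KK

open Finset

/-- Every intersecting family extends to one containing a member of each complementary pair. -/
theorem exists_max {n : ℕ} (hn : 1 ≤ n) {H : Finset (Finset (Fin n))} (hI : Int H) :
    ∃ K : Finset (Finset (Fin n)), H ⊆ K ∧ Int K ∧ ∀ S : Finset (Fin n), S ∈ K ∨ Sᶜ ∈ K := by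
  have : Nonempty (Fin n) := ⟨⟨0, hn⟩⟩
  have hs : (H : Set (Finset (Fin n))).Intersecting := by
    intro A hA B hB hd
    have := hI A (mem_coe.1 hA) B (mem_coe.1 hB)
    rw [← not_disjoint_iff_nonempty_inter] at this
    exact this hd
  obtain ⟨K, hHK, hc, hK⟩ := hs.exists_card_eq
  refine ⟨K, hHK, ?_, ?_⟩
  · intro A hA B hB
    have := hK (mem_coe.2 hA) (mem_coe.2 hB)
    rwa [← not_disjoint_iff_nonempty_inter]
  · intro S
    have hM : K.disjUnion (K.map ⟨compl, compl_injective⟩) hK.disjoint_map_compl = univ := by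
      apply Finset.eq_univ_of_card
      rw [card_disjUnion, card_map]
      omega
    have hS : S ∈ K.disjUnion (K.map ⟨compl, compl_injective⟩) hK.disjoint_map_compl := by
      rw [hM]; exact mem_univ _
    rw [mem_disjUnion] at hS
    rcases hS with h | h
    · exact Or.inl h
    · right
      rw [mem_map] at h
      obtain ⟨T, hT, rfl⟩ := h
      simpa using hT

/-- Size of an edge inside the complement of a 3-set it meets in one point. -/
theorem card_inter_W {n : ℕ} {a b c : Fin n} {A : Finset (Fin n)} (ha : a ∈ A) (hb : b ∉ A)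
    (hc : c ∉ A) : (A ∩ (univ \ {a, b, c})).card = A.card - 1 := by
  have : A ∩ (univ \ {a, b, c}) = A.erase a := by
    ext z
    simp only [mem_inter, mem_sdiff, mem_univ, true_and, mem_insert, mem_singleton, mem_erase,
      not_or]
    constructor
    · rintro ⟨h1, h2, -, -⟩; exact ⟨h2, h1⟩
    · rintro ⟨h1, h2⟩
      exact ⟨h2, h1, fun h => hb (h ▸ h2), fun h => hc (h ▸ h2)⟩
  rw [this, card_erase_of_mem ha]

/-- The three pair classes of a 3-set. -/
theorem Cov.three_pairs {n : ℕ} {a b c : Fin n} (hab : a ≠ b) (hac : a ≠ c) (hbc : b ≠ c) :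
    Cov (fun A : Finset (Fin n) => (a ∈ A ∧ b ∈ A) ∨ (a ∈ A ∧ c ∈ A) ∨ (b ∈ A ∧ c ∈ A)) 3 :=
  (Cov.pair hab).union ((Cov.pair hac).union (Cov.pair hbc))

theorem r3 {n : ℕ} (hn : 7 ≤ n) {K : Finset (Finset (Fin n))} (hI : Int K)
    (hmin : ∀ A ∈ K, 3 ≤ A.card) {a b c : Fin n} (hab : a ≠ b) (hac : a ≠ c) (hbc : b ≠ c)
    (habc : ({a, b, c} : Finset (Fin n)) ∈ K) {Ea Eb Ec : Finset (Fin n)}
    (hEa : Ea ∈ K) (hEa1 : a ∈ Ea ∧ b ∉ Ea ∧ c ∉ Ea)
    (hEa2 : ∀ E ∈ K, a ∈ E → b ∉ E → c ∉ E → Ea.card ≤ E.card)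
    (hEb : Eb ∈ K) (hEb1 : b ∈ Eb ∧ a ∉ Eb ∧ c ∉ Eb)
    (hEb2 : ∀ E ∈ K, b ∈ E → a ∉ E → c ∉ E → Eb.card ≤ E.card)
    (hEc2 : ∀ E ∈ K, c ∈ E → a ∉ E → b ∉ E → Ec.card ≤ E.card)
    (h1 : Ea.card ≤ Eb.card) (h2 : Eb.card ≤ Ec.card) :
    Cov (fun A => A ∈ K) n := by
  have hW : (univ \ ({a, b, c} : Finset (Fin n))).card = n - 3 := by
    rw [card_sdiff_of_subset (subset_univ _), card_univ, Fintype.card_fin]
    rw [card_eq_three.2 ⟨a, b, c, hab, hac, hbc, rfl⟩]
  have haW : a ∉ univ \ ({a, b, c} : Finset (Fin n)) := by simp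
  have hbW : b ∉ univ \ ({a, b, c} : Finset (Fin n)) := by simp
  have hcW : c ∉ univ \ ({a, b, c} : Finset (Fin n)) := by simp
  have hEac := hmin Ea hEa
  have hEbc := hmin Eb hEb
  -- sizes in `W`
  have sa : ∀ A ∈ K, a ∈ A → b ∉ A → c ∉ A →
      Ea.card - 1 ≤ (A ∩ (univ \ ({a, b, c} : Finset (Fin n)))).card := by
    intro A hA h3 h4 h5
    rw [card_inter_W h3 h4 h5]
    have := hEa2 A hA h3 h4 h5
    omega
  have sb : ∀ A ∈ K, b ∈ A → a ∉ A → c ∉ A →
      Eb.card - 1 ≤ (A ∩ (univ \ ({a, b, c} : Finset (Fin n)))).card := by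
    intro A hA h3 h4 h5
    have h6 : ({a, b, c} : Finset (Fin n)) = {b, a, c} := by
      ext z; simp only [mem_insert, mem_singleton]; tauto
    rw [h6, card_inter_W h3 h4 h5]
    have := hEb2 A hA h3 h4 h5
    omega
  have sc : ∀ A ∈ K, c ∈ A → a ∉ A → b ∉ A →
      Ec.card - 1 ≤ (A ∩ (univ \ ({a, b, c} : Finset (Fin n)))).card := by
    intro A hA h3 h4 h5
    have h6 : ({a, b, c} : Finset (Fin n)) = {c, a, b} := by
      ext z; simp only [mem_insert, mem_singleton]; tauto
    rw [h6, card_inter_W h3 h4 h5]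
    have := hEc2 A hA h3 h4 h5
    omega
  have hmeet : ∀ A ∈ K, a ∈ A ∨ b ∈ A ∨ c ∈ A := by
    intro A hA
    obtain ⟨z, hz⟩ := hI A hA _ habc
    simp only [mem_inter, mem_insert, mem_singleton] at hz
    obtain ⟨hz, rfl | rfl | rfl⟩ := hz
    · exact Or.inl hz
    · exact Or.inr (Or.inl hz)
    · exact Or.inr (Or.inr hz)
  by_cases c1 : (Eb.card - 1) + 2 * (Ea.card - 1) ≤ n - 1
  · -- the certificate theorem
    have := cert hI habc (fun x => if x = a then Eb else Ea) (by
      intro x hx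
      simp only [mem_insert, mem_singleton] at hx
      rcases hx with rfl | rfl | rfl
      · simp only [if_true]; exact ⟨hEb, hEb1.2.1⟩
      · rw [if_neg hab.symm]; exact ⟨hEa, hEa1.2.1⟩
      · rw [if_neg hac.symm]; exact ⟨hEa, hEa1.2.2⟩)
    refine this.mono (fun A hA => hA) ?_
    rw [sum_insert (by simp [hab, hac]), sum_insert (by simp [hbc]), sum_singleton]
    simp only [if_true, if_neg hab.symm, if_neg hac.symm]
    omega
  by_cases c2 : n - 3 < 2 * (Eb.card - 1)
  · have ka := Cov.kneser (x := a) (Ea.card - 1) (by omega) (n - 3) _ hW haW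
    have kb := Cov.kneser (x := b) (Eb.card - 1) (by omega) (n - 3) _ hW hbW
    have kc := Cov.kneser (x := c) (Ec.card - 1) (by omega) (n - 3) _ hW hcW
    refine ((Cov.three_pairs hab hac hbc).union (ka.union (kb.union kc))).mono ?_ ?_
    · intro A hA
      by_cases hA1 : a ∈ A <;> by_cases hA2 : b ∈ A <;> by_cases hA3 : c ∈ A
      · exact Or.inl (Or.inl ⟨hA1, hA2⟩)
      · exact Or.inl (Or.inl ⟨hA1, hA2⟩)
      · exact Or.inl (Or.inr (Or.inl ⟨hA1, hA3⟩))
      · exact Or.inr (Or.inl ⟨hA1, sa A hA hA1 hA2 hA3⟩)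
      · exact Or.inl (Or.inr (Or.inr ⟨hA2, hA3⟩))
      · exact Or.inr (Or.inr (Or.inl ⟨hA2, sb A hA hA2 hA1 hA3⟩))
      · exact Or.inr (Or.inr (Or.inr ⟨hA3, sc A hA hA3 hA1 hA2⟩))
      · have := hmeet A hA; tauto
    · omega
  by_cases c3 : n - 3 + 4 ≤ 3 * (Eb.card - 1)
  · have ka := Cov.star (x := a) (Eb.erase b) (fun h => hEb1.2.1 (mem_of_mem_erase h))
    have kb := Cov.kneser (x := b) (Eb.card - 1) (by omega) (n - 3) _ hW hbW
    have kc := Cov.kneser (x := c) (Ec.card - 1) (by omega) (n - 3) _ hW hcW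
    refine ((Cov.three_pairs hab hac hbc).union (ka.union (kb.union kc))).mono ?_ ?_
    · intro A hA
      by_cases hA1 : a ∈ A <;> by_cases hA2 : b ∈ A <;> by_cases hA3 : c ∈ A
      · exact Or.inl (Or.inl ⟨hA1, hA2⟩)
      · exact Or.inl (Or.inl ⟨hA1, hA2⟩)
      · exact Or.inl (Or.inr (Or.inl ⟨hA1, hA3⟩))
      · refine Or.inr (Or.inl ⟨hA1, ?_⟩)
        obtain ⟨z, hz⟩ := hI A hA Eb hEb
        rw [mem_inter] at hz
        exact ⟨z, mem_erase.2 ⟨fun h => hA2 (h ▸ hz.1), hz.2⟩, hz.1⟩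
      · exact Or.inl (Or.inr (Or.inr ⟨hA2, hA3⟩))
      · exact Or.inr (Or.inr (Or.inl ⟨hA2, sb A hA hA2 hA1 hA3⟩))
      · exact Or.inr (Or.inr (Or.inr ⟨hA3, sc A hA hA3 hA1 hA2⟩))
      · have := hmeet A hA; tauto
    · rw [card_erase_of_mem hEb1.1]
      omega
  · have kt := Cov.triangles (Ea.card - 2) (univ \ ({a, b, c} : Finset (Fin n)))
      (by rw [hW]; omega)
    refine ((Cov.three_pairs hab hac hbc).union kt).mono ?_ (by rw [hW]; omega)
    intro A hA
    by_cases hA1 : a ∈ A <;> by_cases hA2 : b ∈ A <;> by_cases hA3 : c ∈ A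
    · exact Or.inl (Or.inl ⟨hA1, hA2⟩)
    · exact Or.inl (Or.inl ⟨hA1, hA2⟩)
    · exact Or.inl (Or.inr (Or.inl ⟨hA1, hA3⟩))
    · right
      have := sa A hA hA1 hA2 hA3
      omega
    · exact Or.inl (Or.inr (Or.inr ⟨hA2, hA3⟩))
    · right
      have := sb A hA hA2 hA1 hA3
      omega
    · right
      have := sc A hA hA3 hA1 hA2
      omega
    · have := hmeet A hA; tauto

/-- All edges have more than a third of the points. -/
theorem large {n : ℕ} (hn : 1 ≤ n) {H : Finset (Finset (Fin n))}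
    (h : ∀ A ∈ H, n ≤ 3 * (A.card - 1)) : Cov (fun A => A ∈ H) n := by
  have := Cov.triangles ((n + 2) / 3) (univ : Finset (Fin n))
    (by rw [card_univ, Fintype.card_fin]; omega)
  refine this.mono ?_ (by rw [card_univ, Fintype.card_fin])
  intro A hA
  have := h A hA
  rw [inter_univ]
  omega

/-- A smallest edge meeting `{a, b, c}` exactly in `a`. -/
theorem exists_min_at {n : ℕ} {K : Finset (Finset (Fin n))}
    (hmax : ∀ S : Finset (Fin n), S ∈ K ∨ Sᶜ ∈ K) (hmin : ∀ A ∈ K, 3 ≤ A.card)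
    {a b c : Fin n} (hab : a ≠ b) (hac : a ≠ c) :
    ∃ E ∈ K, (a ∈ E ∧ b ∉ E ∧ c ∉ E) ∧
      ∀ F ∈ K, a ∈ F → b ∉ F → c ∉ F → E.card ≤ F.card := by
  classical
  have h1 : ({b, c} : Finset (Fin n))ᶜ ∈ K := by
    refine (hmax {b, c}).resolve_left fun h => ?_
    have := hmin _ h
    have h2 := card_le_two (a := b) (b := c)
    omega
  obtain ⟨E, hE1, hE2⟩ := exists_min_image (K.filter fun E => a ∈ E ∧ b ∉ E ∧ c ∉ E)
    (fun E => E.card) ⟨_, mem_filter.2 ⟨h1, by simp [hab, hac]⟩⟩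
  rw [mem_filter] at hE1
  exact ⟨E, hE1.1, hE1.2, fun F hF h3 h4 h5 => hE2 F (mem_filter.2 ⟨hF, h3, h4, h5⟩)⟩

/-- A maximal intersecting family with an edge of size at most three. -/
theorem small_max {n : ℕ} (hn : 1 ≤ n) {K : Finset (Finset (Fin n))} (hI : Int K)
    (hmax : ∀ S : Finset (Fin n), S ∈ K ∨ Sᶜ ∈ K) (hA : ∃ A ∈ K, A.card ≤ 3) :
    Cov (fun A => A ∈ K) n := by
  classical
  obtain ⟨A₁, hA₁, hA₁c⟩ := hA
  obtain ⟨A₀, hA₀, hA₀min⟩ := exists_min_image K (fun A => A.card) ⟨A₁, hA₁⟩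
  have hc3 : A₀.card ≤ 3 := le_trans (hA₀min A₁ hA₁) hA₁c
  have hc1 : 1 ≤ A₀.card := card_pos.2 (hI.nonempty hA₀)
  have hcases : A₀.card = 1 ∨ A₀.card = 2 ∨ A₀.card = 3 := by omega
  rcases hcases with h1 | h2 | h3
  · obtain ⟨x, rfl⟩ := card_eq_one.1 h1
    have hx : ∀ A ∈ K, x ∈ A := by
      intro A hA
      obtain ⟨z, hz⟩ := hI A hA _ hA₀
      rw [mem_inter, mem_singleton] at hz
      exact hz.2 ▸ hz.1
    have k1 : Cov (fun A : Finset (Fin n) => A = {x}) 1 :=
      Cov.one (fun A B hA hB hne => absurd (hA.trans hB.symm) hne)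
    have k2 := Cov.star (x := x) (univ.erase x) (notMem_erase _ _)
    refine (k1.union k2).mono ?_ ?_
    · intro A hA
      by_cases h : A = {x}
      · exact Or.inl h
      · right
        refine ⟨hx A hA, ?_⟩
        by_contra hcon
        push Not at hcon
        apply h
        ext z
        rw [mem_singleton]
        constructor
        · intro hz
          by_contra hzx
          exact hcon z (mem_erase.2 ⟨hzx, mem_univ _⟩) hz
        · rintro rfl; exact hx A hA
    · rw [card_erase_of_mem (mem_univ _), card_univ, Fintype.card_fin]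
      omega
  · obtain ⟨p, q, hpq, rfl⟩ := card_eq_two.1 h2
    have hge : ∀ A ∈ K, 2 ≤ A.card := fun A hA => by have := hA₀min A hA; omega
    have hq : ({q} : Finset (Fin n))ᶜ ∈ K := by
      refine (hmax {q}).resolve_left fun h => ?_
      have := hge _ h
      rw [card_singleton] at this
      omega
    obtain ⟨B, hB1, hB2⟩ := exists_min_image (K.filter fun E => q ∉ E)
      (fun E => E.card) ⟨_, mem_filter.2 ⟨hq, by simp⟩⟩
    rw [mem_filter] at hB1
    obtain ⟨hBK, hqB⟩ := hB1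
    have hpB : p ∈ B := by
      obtain ⟨z, hz⟩ := hI B hBK _ hA₀
      simp only [mem_inter, mem_insert, mem_singleton] at hz
      obtain ⟨hz, rfl | rfl⟩ := hz
      · exact hz
      · exact absurd hz hqB
    have hBc := hge B hBK
    obtain ⟨a, haB, hap⟩ : ∃ a ∈ B, a ≠ p := by
      have : 0 < (B.erase p).card := by rw [card_erase_of_mem hpB]; omega
      obtain ⟨a, ha⟩ := card_pos.1 this
      rw [mem_erase] at ha
      exact ⟨a, ha.2, ha.1⟩
    have hS : B.erase a ∉ K := by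
      intro h
      have := hB2 _ (mem_filter.2 ⟨h, fun h' => hqB (mem_of_mem_erase h')⟩)
      simp only [card_erase_of_mem haB] at this
      omega
    have hSc : (B.erase a)ᶜ ∈ K := (hmax _).resolve_left hS
    have hcardS : ((B.erase a)ᶜ).card = n - (B.card - 1) := by
      rw [card_compl, card_erase_of_mem haB, Fintype.card_fin]
    have hBn : B.card ≤ n := by
      have := card_le_univ B
      rwa [Fintype.card_fin] at this
    have := cert hI hA₀ (fun x => if x = p then (B.erase a)ᶜ else B) (by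
      intro x hx
      simp only [mem_insert, mem_singleton] at hx
      rcases hx with rfl | rfl
      · simp only [if_true]
        exact ⟨hSc, by simp [hpB, hap.symm]⟩
      · rw [if_neg hpq.symm]; exact ⟨hBK, hqB⟩)
    refine this.mono (fun A hA => hA) ?_
    rw [sum_insert (by simp [hpq]), sum_singleton]
    simp only [if_true, if_neg hpq.symm, hcardS]
    omega
  · have hge : ∀ A ∈ K, 3 ≤ A.card := fun A hA => by have := hA₀min A hA; omega
    by_cases hn7 : 7 ≤ n
    · obtain ⟨a, b, c, hab, hac, hbc, rfl⟩ := card_eq_three.1 h3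
      obtain ⟨Ea, hEa, hEa1, hEa2⟩ := exists_min_at hmax hge hab hac
      obtain ⟨Eb, hEb, hEb1, hEb2⟩ := exists_min_at hmax hge hab.symm hbc
      obtain ⟨Ec, hEc, hEc1, hEc2⟩ := exists_min_at hmax hge hac.symm hbc.symm
      have e1 : ({a, c, b} : Finset (Fin n)) ∈ K := by
        convert hA₀ using 1; ext z; simp only [mem_insert, mem_singleton]; tauto
      have e2 : ({b, a, c} : Finset (Fin n)) ∈ K := by
        convert hA₀ using 1; ext z; simp only [mem_insert, mem_singleton]; tauto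
      have e3 : ({b, c, a} : Finset (Fin n)) ∈ K := by
        convert hA₀ using 1; ext z; simp only [mem_insert, mem_singleton]; tauto
      have e4 : ({c, a, b} : Finset (Fin n)) ∈ K := by
        convert hA₀ using 1; ext z; simp only [mem_insert, mem_singleton]; tauto
      have e5 : ({c, b, a} : Finset (Fin n)) ∈ K := by
        convert hA₀ using 1; ext z; simp only [mem_insert, mem_singleton]; tauto
      rcases le_total Ea.card Eb.card with l1 | l1 <;>
        rcases le_total Eb.card Ec.card with l2 | l2 <;>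
        rcases le_total Ea.card Ec.card with l3 | l3
      · exact r3 hn7 hI hge hab hac hbc hA₀ hEa hEa1 hEa2 hEb hEb1 hEb2 hEc2 l1 l2
      · exact r3 hn7 hI hge hab hac hbc hA₀ hEa hEa1 hEa2 hEb hEb1 hEb2 hEc2 l1 l2
      · exact r3 hn7 hI hge hac hab hbc.symm e1 hEa ⟨hEa1.1, hEa1.2.2, hEa1.2.1⟩
          (fun F hF h1 h2 h3 => hEa2 F hF h1 h3 h2) hEc hEc1 hEc2
          (fun F hF h1 h2 h3 => hEb2 F hF h1 h2 h3) l3 l2
      · exact r3 hn7 hI hge hac.symm hbc.symm hab e4 hEc ⟨hEc1.1, hEc1.2.1, hEc1.2.2⟩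
          hEc2 hEa ⟨hEa1.1, hEa1.2.2, hEa1.2.1⟩
          (fun F hF h1 h2 h3 => hEa2 F hF h1 h3 h2)
          (fun F hF h1 h2 h3 => hEb2 F hF h1 h3 h2) l3 l1
      · exact r3 hn7 hI hge hab.symm hbc hac e2 hEb hEb1 hEb2 hEa hEa1 hEa2
          (fun F hF h1 h2 h3 => hEc2 F hF h1 h3 h2) l1 l3
      · exact r3 hn7 hI hge hbc hab.symm hac.symm e3 hEb ⟨hEb1.1, hEb1.2.2, hEb1.2.1⟩
          (fun F hF h1 h2 h3 => hEb2 F hF h1 h3 h2) hEc ⟨hEc1.1, hEc1.2.2, hEc1.2.1⟩
          (fun F hF h1 h2 h3 => hEc2 F hF h1 h3 h2)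
          (fun F hF h1 h2 h3 => hEa2 F hF h1 h2 h3) l2 l3
      · exact r3 hn7 hI hge hbc.symm hac.symm hab.symm e5 hEc ⟨hEc1.1, hEc1.2.2, hEc1.2.1⟩
          (fun F hF h1 h2 h3 => hEc2 F hF h1 h3 h2) hEb ⟨hEb1.1, hEb1.2.2, hEb1.2.1⟩
          (fun F hF h1 h2 h3 => hEb2 F hF h1 h3 h2)
          (fun F hF h1 h2 h3 => hEa2 F hF h1 h3 h2) l2 l1
      · exact r3 hn7 hI hge hbc.symm hac.symm hab.symm e5 hEc ⟨hEc1.1, hEc1.2.2, hEc1.2.1⟩
          (fun F hF h1 h2 h3 => hEc2 F hF h1 h3 h2) hEb ⟨hEb1.1, hEb1.2.2, hEb1.2.1⟩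
          (fun F hF h1 h2 h3 => hEb2 F hF h1 h3 h2)
          (fun F hF h1 h2 h3 => hEa2 F hF h1 h3 h2) l2 l1
    · refine large hn fun A hA => ?_
      have := hge A hA
      omega

/-- An intersecting family with an edge of size at most three. -/
theorem small {n : ℕ} (hn : 1 ≤ n) {H : Finset (Finset (Fin n))} (hI : Int H)
    (hA : ∃ A ∈ H, A.card ≤ 3) : Cov (fun A => A ∈ H) n := by
  obtain ⟨K, hHK, hK, hmax⟩ := exists_max hn hI
  obtain ⟨A, hA, hAc⟩ := hA
  exact (small_max hn hK hmax ⟨A, hHK hA, hAc⟩).mono (fun A hA => hHK hA) le_rfl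

/-- All edges contain a common point. -/
theorem common {n : ℕ} (hn : 1 ≤ n) {S : Finset (Fin n) → Prop} {x : Fin n}
    (hx : ∀ A, S A → x ∈ A) : Cov S n := by
  classical
  have k1 : Cov (fun A : Finset (Fin n) => A = {x}) 1 :=
    Cov.one (fun A B hA hB hne => absurd (hA.trans hB.symm) hne)
  have k2 := Cov.star (x := x) (univ.erase x) (notMem_erase _ _)
  refine (k1.union k2).mono ?_ ?_
  · intro A hA
    by_cases h : A = {x}
    · exact Or.inl h
    · right
      refine ⟨hx A hA, ?_⟩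
      by_contra hcon
      push Not at hcon
      apply h
      ext z
      rw [mem_singleton]
      constructor
      · intro hz
        by_contra hzx
        exact hcon z (mem_erase.2 ⟨hzx, mem_univ _⟩) hz
      · rintro rfl; exact hx A hA
  · rw [card_erase_of_mem (mem_univ _), card_univ, Fintype.card_fin]
    omega

/-- Two small edges meeting in a single point. -/
theorem single_point {n : ℕ} (hn : 1 ≤ n) {H : Finset (Finset (Fin n))} (hI : Int H)
    {A B : Finset (Fin n)} (hA : A ∈ H) (hB : B ∈ H) (hAB : (A ∩ B).card = 1)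
    (hbound : 2 * ((A.card - 1) * (B.card - 1)) ≤ n + 1) : Cov (fun A => A ∈ H) n := by
  classical
  obtain ⟨x, hx⟩ := card_eq_one.1 hAB
  have hxA : x ∈ A := by
    have : x ∈ A ∩ B := by rw [hx]; simp
    exact (mem_inter.1 this).1
  have hxB : x ∈ B := by
    have : x ∈ A ∩ B := by rw [hx]; simp
    exact (mem_inter.1 this).2
  by_cases hall : ∀ E ∈ H, x ∈ E
  · exact common hn hall
  push Not at hall
  obtain ⟨E₀, hE₀, hxE₀⟩ := hall
  obtain ⟨E, hE1, hE2⟩ := exists_min_image (H.filter fun E => x ∉ E)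
    (fun E => E.card) ⟨E₀, mem_filter.2 ⟨hE₀, hxE₀⟩⟩
  rw [mem_filter] at hE1
  obtain ⟨hE, hxE⟩ := hE1
  by_cases hbig : n + 1 ≤ 2 * E.card
  · have k1 := Cov.star (x := x) (univ.erase x) (notMem_erase _ _)
    have k2 : Cov (fun P : Finset (Fin n) => P ∈ H ∧ x ∉ P) 1 := by
      refine Cov.one ?_
      rintro P Q ⟨hP, hxP⟩ ⟨hQ, hxQ⟩ -
      have h1 := hE2 P (mem_filter.2 ⟨hP, hxP⟩)
      have h2 := hE2 Q (mem_filter.2 ⟨hQ, hxQ⟩)
      have h3 := card_union_add_card_inter P Q
      have h4 : (P ∪ Q).card ≤ (univ.erase x).card := by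
        refine card_le_card ?_
        intro z hz
        rw [mem_erase]
        refine ⟨?_, mem_univ _⟩
        rintro rfl
        rcases mem_union.1 hz with h | h
        · exact hxP h
        · exact hxQ h
      rw [card_erase_of_mem (mem_univ _), card_univ, Fintype.card_fin] at h4
      omega
    refine (k1.union k2).mono ?_ ?_
    · intro P hP
      by_cases hxP : x ∈ P
      · left
        refine ⟨hxP, ?_⟩
        obtain ⟨y, hy⟩ := hI P hP E hE
        rw [mem_inter] at hy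
        exact ⟨y, mem_erase.2 ⟨fun h => hxE (h ▸ hy.2), mem_univ _⟩, hy.1⟩
      · exact Or.inr ⟨hP, hxP⟩
    · rw [card_erase_of_mem (mem_univ _), card_univ, Fintype.card_fin]
      omega
  · have k1 := Cov.star (x := x) E hxE
    have k2 := Cov.bUnion (A.erase x)
      (fun u (P : Finset (Fin n)) => u ∈ P ∧ ∃ v ∈ B.erase x, v ∈ P)
      (fun _ => (B.erase x).card) (by
        intro u hu
        refine Cov.star (x := u) (B.erase x) ?_
        intro huB
        rw [mem_erase] at hu huB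
        have : u ∈ A ∩ B := mem_inter.2 ⟨hu.2, huB.2⟩
        rw [hx, mem_singleton] at this
        exact hu.1 this)
    refine (k1.union k2).mono ?_ ?_
    · intro P hP
      by_cases hxP : x ∈ P
      · left
        obtain ⟨y, hy⟩ := hI P hP E hE
        rw [mem_inter] at hy
        exact ⟨hxP, y, hy.2, hy.1⟩
      · right
        obtain ⟨u, hu⟩ := hI P hP A hA
        obtain ⟨v, hv⟩ := hI P hP B hB
        rw [mem_inter] at hu hv
        exact ⟨u, mem_erase.2 ⟨fun h => hxP (h ▸ hu.1), hu.2⟩, hu.1, v,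
          mem_erase.2 ⟨fun h => hxP (h ▸ hv.1), hv.2⟩, hv.1⟩
    · rw [sum_const, smul_eq_mul, card_erase_of_mem hxA, card_erase_of_mem hxB]
      omega

/-- The edges of size at most `r` have no common point, `r (r - 1) < n`. -/
theorem small_rank {n r : ℕ} (hn : 1 ≤ n) (hr : r * (r - 1) < n)
    {H : Finset (Finset (Fin n))} (hI : Int H)
    (h : ∀ x : Fin n, ∃ E ∈ H, E.card ≤ r ∧ x ∉ E) : Cov (fun A => A ∈ H) n := by
  obtain ⟨A₀, hA₀, hc, -⟩ := h ⟨0, hn⟩
  choose C hC1 hC2 hC3 using h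
  refine (cert hI hA₀ C fun x _ => ⟨hC1 x, hC3 x⟩).mono (fun A hA => hA) ?_
  have h1 : ∑ x ∈ A₀, ((C x).card - 1) ≤ ∑ _x ∈ A₀, (r - 1) :=
    sum_le_sum fun x _ => by have := hC2 x; omega
  rw [sum_const, smul_eq_mul] at h1
  have h2 : A₀.card * (r - 1) ≤ r * (r - 1) := Nat.mul_le_mul_right _ hc
  omega

/-- Residue classes: all sets with more than `t` points. -/
theorem Cov.residues (n t : ℕ) (ht : 1 ≤ t) :
    Cov (fun A : Finset (Fin n) => t < A.card) (n * (n - 1) / (2 * t)) := by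
  classical
  let T : Fin n → Finset (Fin n) := fun y => univ.filter fun x => x < y ∧ (x : ℕ) % t = (y : ℕ) % t
  have hT : ∀ y : Fin n, (T y).card ≤ (y : ℕ) / t := by
    intro y
    have : (T y).card ≤ (range ((y : ℕ) / t)).card := by
      refine card_le_card_of_injOn (fun x => (x : ℕ) / t) ?_ ?_
      · intro x hx
        simp only [T, coe_filter, mem_univ, true_and, Set.mem_ofPred_eq] at hx
        obtain ⟨h1, h2⟩ := hx
        simp only [coe_range, Set.mem_Iio]
        have h3 : (x : ℕ) < (y : ℕ) := h1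
        have h4 := Nat.div_add_mod (x : ℕ) t
        have h5 := Nat.div_add_mod (y : ℕ) t
        by_contra hcon
        push Not at hcon
        have h6 : t * ((y : ℕ) / t) ≤ t * ((x : ℕ) / t) := Nat.mul_le_mul_left _ hcon
        omega
      · intro x hx x' hx' hxx
        simp only [T, coe_filter, mem_univ, true_and, Set.mem_ofPred_eq] at hx hx'
        have h4 := Nat.div_add_mod (x : ℕ) t
        have h5 := Nat.div_add_mod (x' : ℕ) t
        simp only at hxx
        rw [hxx] at h4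
        apply Fin.ext
        omega
    rwa [card_range] at this
  have k := Cov.bUnion (univ : Finset (Fin n))
    (fun y (P : Finset (Fin n)) => y ∈ P ∧ ∃ x ∈ T y, x ∈ P) (fun y => (T y).card) (by
      intro y _
      refine Cov.star (x := y) (T y) ?_
      simp [T])
  refine k.mono ?_ ?_
  · intro A hA
    obtain ⟨x, hx, y, hy, hne, hxy⟩ := exists_ne_map_eq_of_card_lt_of_maps_to
      (s := A) (t := range t) (f := fun x : Fin n => (x : ℕ) % t) (by rw [card_range]; exact hA)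
      (by
        intro x _
        simp only [coe_range, Set.mem_Iio]
        exact Nat.mod_lt _ ht)
    rcases lt_or_gt_of_ne hne with h | h
    · exact ⟨y, mem_univ _, hy, x, mem_filter.2 ⟨mem_univ _, h, hxy⟩, hx⟩
    · exact ⟨x, mem_univ _, hx, y, mem_filter.2 ⟨mem_univ _, h, hxy.symm⟩, hy⟩
  · have h1 : ∑ y : Fin n, (T y).card ≤ ∑ y : Fin n, (y : ℕ) / t := sum_le_sum fun y _ => hT y
    have h2 : ∑ y : Fin n, (y : ℕ) / t = ∑ y ∈ range n, y / t := by
      rw [Finset.sum_range]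
    have h3 : t * ∑ y ∈ range n, y / t ≤ ∑ y ∈ range n, y := by
      rw [mul_sum]
      exact sum_le_sum fun y _ => Nat.mul_div_le y t
    have h4 := Finset.sum_range_id_mul_two n
    rw [Nat.le_div_iff_mul_le (by omega)]
    have h5 : (∑ y : Fin n, (T y).card) * (2 * t) ≤ (∑ y ∈ range n, y / t) * (2 * t) :=
      Nat.mul_le_mul_right _ (by rw [← h2]; exact h1)
    calc (∑ y : Fin n, (T y).card) * (2 * t) ≤ (∑ y ∈ range n, y / t) * (2 * t) := h5
      _ = (t * ∑ y ∈ range n, y / t) * 2 := by ring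
      _ ≤ (∑ y ∈ range n, y) * 2 := Nat.mul_le_mul_right _ h3
      _ = n * (n - 1) := h4

/-- The general bound with a free threshold `t`. -/
theorem general {n : ℕ} (hn : 1 ≤ n) {H : Finset (Finset (Fin n))} (hI : Int H) (t : ℕ)
    (ht : 1 ≤ t) :
    Cov (fun A => A ∈ H) (max (t * (t - 1) + 1) (n + n * (n - 1) / (2 * t))) := by
  by_cases h : ∀ x : Fin n, ∃ E ∈ H, E.card ≤ t ∧ x ∉ E
  · obtain ⟨A₀, hA₀, hc, -⟩ := h ⟨0, hn⟩
    choose C hC1 hC2 hC3 using h
    refine (cert hI hA₀ C fun x _ => ⟨hC1 x, hC3 x⟩).mono (fun A hA => hA) ?_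
    have h1 : ∑ x ∈ A₀, ((C x).card - 1) ≤ ∑ _x ∈ A₀, (t - 1) :=
      sum_le_sum fun x _ => by have := hC2 x; omega
    rw [sum_const, smul_eq_mul] at h1
    have h2 : A₀.card * (t - 1) ≤ t * (t - 1) := Nat.mul_le_mul_right _ hc
    omega
  · push Not at h
    obtain ⟨x, hx⟩ := h
    have k1 : Cov (fun A : Finset (Fin n) => x ∈ A) n := common hn (x := x) (fun A hA => hA)
    refine (k1.union (Cov.residues n t ht)).mono ?_ (le_max_right _ _)
    intro A hA
    by_cases hxA : x ∈ A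
    · exact Or.inl hxA
    · right
      by_contra hcon
      exact hxA (hx A hA (not_lt.1 hcon))

end Pool.Agent.H56.KK
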