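import Mathlib
import Pool.Agent.H56.KKSmall

/-!
# Helpers shared by the hand-ins on MP_b5e666_co
-/

set_option autoImplicit false

namespace Pool.Agent.H56.KK

open Finset

theorem toInt {n : ℕ} {H : Finset (Finset (Fin n))}
    (h : (H : Set (Finset (Fin n))).Intersecting) : Int H := by
  intro A hA B hB
  have := h (mem_coe.2 hA) (mem_coe.2 hB)
  rwa [← not_disjoint_iff_nonempty_inter]

theorem ofCov {n k : ℕ} (hk : 1 ≤ k) {H : Finset (Finset (Fin n))}
    (h : Cov (fun A => A ∈ H) k) :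
    ∃ f : Finset (Fin n) → Fin k,
      ∀ F ∈ H, ∀ F' ∈ H, F ≠ F' → f F = f F' → 2 ≤ (F ∩ F').card := by
  classical
  obtain ⟨f, h1, h2⟩ := h
  refine ⟨fun A => if hA : f A < k then ⟨f A, hA⟩ else ⟨0, hk⟩, ?_⟩
  intro F hF F' hF' hne hf
  simp only [h1 F hF, h1 F' hF', dif_pos] at hf
  exact h2 F F' hF hF' hne (by simpa using congrArg Fin.val hf)

end Pool.Agent.H56.KK
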