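import Mathlib
import Pool.Agent.H56.KakTable

set_option autoImplicit false

open Finset

namespace Pool.Agent.H56.Kakutani

open Pool.Agent.H56.KakTable

/-- Kakutani's `7x+1` map -/
def C (m : ℕ) : ℕ :=
  if 2 ∣ m then m / 2 else if 3 ∣ m then m / 3 else if 5 ∣ m then m / 5 else 7 * m + 1

lemma reach_mul : ∀ M : ℕ, 0 < M → M ∣ 30 ^ 20 → ∀ y : ℕ, Nat.Coprime 30 y →
    ∃ i, C^[i] (M * y) = y := by
  intro M
  induction M using Nat.strong_induction_on with
  | _ M ih =>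
    intro hM hd y hy
    rcases Nat.lt_or_ge 1 M with h1 | h1
    · -- some prime factor
      have step : ∀ p : ℕ, p.Prime → p ∣ M → C (M * y) = (M / p) * y →
          ∃ i, C^[i] (M * y) = y := by
        intro p hp hpM hC
        obtain ⟨i, hi⟩ := ih (M / p) (Nat.div_lt_self hM hp.one_lt)
          (Nat.div_pos (Nat.le_of_dvd hM hpM) hp.pos) ((Nat.div_dvd_of_dvd hpM).trans hd) y hy
        refine ⟨i + 1, ?_⟩
        rw [Function.iterate_succ_apply, hC, hi]
      have hco2 : ¬ 2 ∣ y := fun h => by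
        have := Nat.Coprime.eq_one_of_dvd (Nat.Coprime.coprime_dvd_left (show 2 ∣ 30 by norm_num) hy) h
        omega
      have hco3 : ¬ 3 ∣ y := fun h => by
        have := Nat.Coprime.eq_one_of_dvd (Nat.Coprime.coprime_dvd_left (show 3 ∣ 30 by norm_num) hy) h
        omega
      have hco5 : ¬ 5 ∣ y := fun h => by
        have := Nat.Coprime.eq_one_of_dvd (Nat.Coprime.coprime_dvd_left (show 5 ∣ 30 by norm_num) hy) h
        omega
      have hdiv : ∀ p : ℕ, p ∣ M → (M * y) / p = (M / p) * y := fun p hp => by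
        rw [Nat.mul_comm, Nat.mul_div_assoc _ hp, Nat.mul_comm]
      by_cases h2 : 2 ∣ M
      · refine step 2 Nat.prime_two h2 ?_
        rw [C, if_pos (Dvd.dvd.mul_right h2 y), hdiv 2 h2]
      by_cases h3 : 3 ∣ M
      · refine step 3 Nat.prime_three h3 ?_
        rw [C, if_neg (fun h => ?_), if_pos (Dvd.dvd.mul_right h3 y), hdiv 3 h3]
        rcases (Nat.prime_two.dvd_mul).1 h with h | h
        · exact h2 h
        · exact hco2 h
      by_cases h5 : 5 ∣ M
      · refine step 5 Nat.prime_five h5 ?_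
        rw [C, if_neg (fun h => ?_), if_neg (fun h => ?_), if_pos (Dvd.dvd.mul_right h5 y),
          hdiv 5 h5]
        · rcases (Nat.prime_three.dvd_mul).1 h with h | h
          · exact h3 h
          · exact hco3 h
        · rcases (Nat.prime_two.dvd_mul).1 h with h | h
          · exact h2 h
          · exact hco2 h
      · exfalso
        obtain ⟨p, hp, hpM⟩ := Nat.exists_prime_and_dvd (show M ≠ 1 by omega)
        have hp30 : p ∣ 30 := hp.dvd_of_dvd_pow (hpM.trans hd)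
        have : p ∈ Nat.primeFactors 30 := Nat.mem_primeFactors.2 ⟨hp, hp30, by norm_num⟩
        have h30 : Nat.primeFactors 30 = {2, 3, 5} := by decide +kernel
        rw [h30] at this
        simp only [Finset.mem_insert, Finset.mem_singleton] at this
        rcases this with rfl | rfl | rfl
        · exact h2 hpM
        · exact h3 hpM
        · exact h5 hpM
    · have : M = 1 := by omega
      subst this
      exact ⟨0, by simp⟩

lemma C_coprime {z : ℕ} (h2 : z % 2 ≠ 0) (h3 : z % 3 ≠ 0) (h5 : z % 5 ≠ 0) :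
    C z = 7 * z + 1 := by
  rw [C, if_neg (by omega), if_neg (by omega), if_neg (by omega)]

lemma coprime30 {z : ℕ} (h2 : z % 2 ≠ 0) (h3 : z % 3 ≠ 0) (h5 : z % 5 ≠ 0) :
    Nat.Coprime 30 z := by
  have h30 : (30 : ℕ) = 2 * 3 * 5 := by norm_num
  rw [h30]
  refine Nat.Coprime.mul_left (Nat.Coprime.mul_left ?_ ?_) ?_
  · exact (Nat.Prime.coprime_iff_not_dvd Nat.prime_two).2 (by omega)
  · exact (Nat.Prime.coprime_iff_not_dvd Nat.prime_three).2 (by omega)
  · exact (Nat.Prime.coprime_iff_not_dvd Nat.prime_five).2 (by omega)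

/-- uniqueness of the smooth part -/
lemma smooth_unique {M M' y y' : ℕ} (hM : M ∣ 30 ^ 20) (hM' : M' ∣ 30 ^ 20)
    (hy : Nat.Coprime 30 y) (hy' : Nat.Coprime 30 y') (hM0 : 0 < M) (h : M * y = M' * y') :
    M = M' ∧ y = y' := by
  have h1 : Nat.Coprime M y' := Nat.Coprime.coprime_dvd_left hM (Nat.Coprime.pow_left 20 hy')
  have h2 : Nat.Coprime M' y := Nat.Coprime.coprime_dvd_left hM' (Nat.Coprime.pow_left 20 hy)
  have h3 : M ∣ M' := h1.dvd_of_dvd_mul_right (h ▸ Dvd.intro _ rfl)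
  have h4 : M' ∣ M := h2.dvd_of_dvd_mul_right (h ▸ Dvd.intro _ rfl)
  have h5 : M = M' := Nat.dvd_antisymm h3 h4
  refine ⟨h5, ?_⟩
  rw [← h5] at h
  exact Nat.eq_of_mul_eq_mul_left hM0 h

/-- class weight -/
def ps (z : ℕ) : ℕ := psi (z % 343) (z % 3) (z % 5)

lemma checkI_get {l : List (ℕ × ℕ)} {i : ℕ} : ∀ {n : ℕ}, checkI l i n = true → ∀ t < n,
    ∀ a b : ℕ, 1 ≤ a → a < 3 → 1 ≤ b → b < 5 → check l (7 * t + i) a b = true := by
  intro n
  induction n with
  | zero => intro _ t ht; omega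
  | succ n ih =>
    intro h t ht a b ha1 ha2 hb1 hb2
    rw [checkI] at h
    simp only [Bool.and_eq_true] at h
    obtain ⟨h1, h2⟩ := h
    rcases Nat.lt_succ_iff_lt_or_eq.1 ht with h3 | rfl
    · exact ih h2 t h3 a b ha1 ha2 hb1 hb2
    · have e : Nat.add (Nat.mul 7 t) i = 7 * t + i := rfl
      rw [e] at h1
      interval_cases a <;> interval_cases b <;> tauto

lemma zeroI_get : ∀ {n : ℕ}, zeroI n = true → ∀ u < n, ∀ a b : ℕ, a < 3 → b < 5 →
    psi u a b ≠ 0 → u % 7 ≠ 0 ∧ a ≠ 0 ∧ b ≠ 0 := by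
  intro n
  induction n with
  | zero => intro _ t ht; omega
  | succ n ih =>
    intro h u hu a b ha hb hne
    rw [zeroI] at h
    simp only [Bool.and_eq_true, Bool.or_eq_true] at h
    obtain ⟨⟨h1, h2⟩, h3⟩ := h
    rcases Nat.lt_succ_iff_lt_or_eq.1 hu with h4 | rfl
    · exact ih h3 u h4 a b ha hb hne
    · have e : Nat.ble 1 (Nat.mod u 7) = true ↔ u % 7 ≠ 0 := by
        rw [Nat.ble_eq]
        change 1 ≤ u % 7 ↔ _
        omega
      rw [e] at h2
      simp only [Nat.beq_eq] at h1 h2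
      interval_cases a <;> interval_cases b <;> simp_all

/-- the list of multipliers for a residue class modulo 7 -/
def Lof (i : ℕ) : List (ℕ × ℕ) :=
  if i = 1 then L1 else if i = 2 then L4 else if i = 3 then L5 else if i = 4 then L2
  else if i = 5 then L3 else L6

lemma Lof_check {i : ℕ} (hi : 1 ≤ i) (hi' : i < 7) : checkI (Lof i) i 343 = true := by
  interval_cases i
  · exact check1
  · exact check2
  · exact check3
  · exact check4
  · exact check5
  · exact check6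

lemma Lof_prop {i : ℕ} (hi : 1 ≤ i) (hi' : i < 7) : Lprop i (Lof i) = true := by
  interval_cases i
  · exact Lprop1
  · exact Lprop2
  · exact Lprop3
  · exact Lprop4
  · exact Lprop5
  · exact Lprop6

lemma Lof_nodup {i : ℕ} (hi : 1 ≤ i) (hi' : i < 7) : (Lof i).Nodup := by
  interval_cases i
  · exact nodup1
  · exact nodup4
  · exact nodup5
  · exact nodup2
  · exact nodup3
  · exact nodup6

lemma Lof_mem {i : ℕ} (hi : 1 ≤ i) (hi' : i < 7) {p : ℕ × ℕ} (hp : p ∈ Lof i) :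
    1 ≤ p.1 ∧ p.1 ≤ 10000 ∧ p.1 % 2 = 0 ∧ p.1 ∣ 30 ^ 20 ∧ (p.1 * i) % 7 = 1 ∧
    p.2 ^ 5 * p.1 ^ 4 ≤ 1000000 ^ 5 * 7 ^ 4 := by
  have h := Lof_prop hi hi'
  rw [Lprop, List.all_eq_true] at h
  have h' := h p hp
  simp only [Bool.and_eq_true, Nat.ble_eq, Nat.beq_eq] at h'
  obtain ⟨⟨⟨⟨⟨h1, h2⟩, h3⟩, h4⟩, h5⟩, h6⟩ := h'
  exact ⟨h1, h2, h3, Nat.dvd_of_mod_eq_zero h4, h5, h6⟩

lemma F_eq (r a b : ℕ) (l : List (ℕ × ℕ)) : F r a b l = (l.map (term r a b)).sum := by
  induction l with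
  | nil => rfl
  | cons p l ih =>
    rw [F, ih, List.map_cons, List.sum_cons]
    rfl

/-- the child of `y` with multiplier `M` -/
def child (M y : ℕ) : ℕ := (M * y - 1) / 7

lemma child_spec {M y : ℕ} (h : (M * y) % 7 = 1) : 7 * child M y + 1 = M * y := by
  unfold child
  omega

lemma term_eq {y : ℕ} {i : ℕ} (hi : i = y % 7) {p : ℕ × ℕ} (hp : (p.1 * i) % 7 = 1) :
    term (y % 2401) (y % 3) (y % 5) p = ps (child p.1 y) * p.2 := by
  have h1 : (p.1 * y) % 7 = 1 := by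
    rw [hi] at hp
    rw [Nat.mul_mod, Nat.mod_mod] at hp
    rw [Nat.mul_mod]
    exact hp
  have hc := child_spec h1
  unfold term ps
  change psi (((p.1 * (y % 2401)) % 2401 - 1) / 7) ((p.1 * (y % 3) + 2) % 3)
    ((3 * (p.1 * (y % 5) + 4)) % 5) * p.2 = _
  have e1 : (p.1 * (y % 2401)) % 2401 = (p.1 * y) % 2401 := by
    rw [Nat.mul_mod, Nat.mod_mod, ← Nat.mul_mod]
  have e2 : (p.1 * (y % 3) + 2) % 3 = (p.1 * y + 2) % 3 := by
    rw [Nat.add_mod, Nat.mul_mod, Nat.mod_mod, ← Nat.mul_mod, ← Nat.add_mod]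
  have e3 : (3 * (p.1 * (y % 5) + 4)) % 5 = (3 * (p.1 * y + 4)) % 5 := by
    rw [Nat.mul_mod, Nat.add_mod (p.1 * (y % 5)), Nat.mul_mod p.1, Nat.mod_mod, ← Nat.mul_mod p.1,
      ← Nat.add_mod, ← Nat.mul_mod]
  rw [e1, e2, e3, ← hc]
  have f1 : ((7 * child p.1 y + 1) % 2401 - 1) / 7 = child p.1 y % 343 := by omega
  have f2 : (7 * child p.1 y + 1 + 2) % 3 = child p.1 y % 3 := by omega
  have f3 : (3 * (7 * child p.1 y + 1 + 4)) % 5 = child p.1 y % 5 := by omega
  rw [f1, f2, f3]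

/-- the main arithmetic inequality -/
lemma main_ineq {y : ℕ} (h7 : y % 7 ≠ 0) (h3 : y % 3 ≠ 0) (h5 : y % 5 ≠ 0) :
    1000000 * ps y ≤ ∑ p ∈ (Lof (y % 7)).toFinset, ps (child p.1 y) * p.2 := by
  have hi : 1 ≤ y % 7 := by omega
  have hi' : y % 7 < 7 := Nat.mod_lt _ (by norm_num)
  have hc := checkI_get (Lof_check hi hi') (y % 2401 / 7) (by omega) (y % 3) (y % 5) (by omega)
    (by omega) (by omega) (by omega)
  have e : 7 * (y % 2401 / 7) + y % 7 = y % 2401 := by omega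
  rw [e, check, Nat.ble_eq] at hc
  change 1000000 * psi (y % 2401 % 343) (y % 3) (y % 5) ≤ _ at hc
  rw [show y % 2401 % 343 = y % 343 by omega] at hc
  refine hc.trans (le_of_eq ?_)
  rw [F_eq, List.sum_toFinset _ (Lof_nodup hi hi')]
  congr 1
  refine List.map_congr_left fun p hp => ?_
  exact term_eq rfl (Lof_mem hi hi' hp).2.2.2.2.1

end Pool.Agent.H56.Kakutani
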