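import Mathlib
import Pool.Agent.H56.Kakutani

set_option autoImplicit false

open Finset

namespace Pool.Agent.H56.Kakutani

open Pool.Agent.H56.KakTable

lemma fst_nodup {i : ℕ} (hi : 1 ≤ i) (hi' : i < 7) : ((Lof i).map Prod.fst).Nodup := by
  interval_cases i
  · change (L1.map Prod.fst).Nodup
    decide +kernel
  · change (L4.map Prod.fst).Nodup
    decide +kernel
  · change (L5.map Prod.fst).Nodup
    decide +kernel
  · change (L2.map Prod.fst).Nodup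
    decide +kernel
  · change (L3.map Prod.fst).Nodup
    decide +kernel
  · change (L6.map Prod.fst).Nodup
    decide +kernel

lemma ps_ne {z : ℕ} (h : ps z ≠ 0) : z % 7 ≠ 0 ∧ z % 3 ≠ 0 ∧ z % 5 ≠ 0 := by
  have := zeroI_get zero_check (z % 343) (Nat.mod_lt _ (by norm_num)) (z % 3) (z % 5)
    (Nat.mod_lt _ (by norm_num)) (Nat.mod_lt _ (by norm_num)) h
  omega

lemma ps_lt (z : ℕ) : ps z < 16384 := Nat.mod_lt _ (by norm_num)

/-- the weight of `z` -/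
noncomputable def W (z : ℕ) : ℝ := ps z * (z : ℝ) ^ (-(4 / 5) : ℝ)

lemma W_nonneg (z : ℕ) : 0 ≤ W z := by
  unfold W
  positivity

lemma root_bound {w M : ℕ} (hM : 1 ≤ M) (h : w ^ 5 * M ^ 4 ≤ 1000000 ^ 5 * 7 ^ 4) :
    (w : ℝ) / 1000000 ≤ ((7 : ℝ) / M) ^ (4 / 5 : ℝ) := by
  have hM' : (0 : ℝ) < M := by exact_mod_cast hM
  have h' : (w : ℝ) ^ 5 * M ^ 4 ≤ 1000000 ^ 5 * 7 ^ 4 := by exact_mod_cast h
  have h1 : ((w : ℝ) / 1000000) ^ 5 ≤ ((7 : ℝ) / M) ^ 4 := by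
    rw [div_pow, div_pow, div_le_div_iff₀ (by positivity) (by positivity)]
    linarith
  have h2 : ((w : ℝ) / 1000000) = (((w : ℝ) / 1000000) ^ 5) ^ (1 / 5 : ℝ) := by
    rw [← Real.rpow_natCast, ← Real.rpow_mul (by positivity)]
    norm_num
  have h3 : ((7 : ℝ) / M) ^ (4 / 5 : ℝ) = (((7 : ℝ) / M) ^ 4) ^ (1 / 5 : ℝ) := by
    rw [← Real.rpow_natCast, ← Real.rpow_mul (by positivity)]
    norm_num
  rw [h2, h3]
  exact Real.rpow_le_rpow (by positivity) h1 (by norm_num)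

lemma child_weight {M w y z : ℕ} (hM : 1 ≤ M) (hw : w ^ 5 * M ^ 4 ≤ 1000000 ^ 5 * 7 ^ 4)
    (hy : 1 ≤ y) (hz : 1 ≤ z) (h : 7 * z + 1 = M * y) :
    (w : ℝ) / 1000000 * (y : ℝ) ^ (-(4 / 5) : ℝ) ≤ (z : ℝ) ^ (-(4 / 5) : ℝ) := by
  have hM' : (0 : ℝ) < M := by exact_mod_cast hM
  have hy' : (0 : ℝ) < y := by exact_mod_cast hy
  have hz' : (0 : ℝ) < z := by exact_mod_cast hz
  have h1 : (z : ℝ) ≤ M / 7 * y := by
    have : (7 : ℝ) * z + 1 = M * y := by exact_mod_cast h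
    linarith
  have h2 : ((M : ℝ) / 7 * y) ^ (-(4 / 5) : ℝ) ≤ (z : ℝ) ^ (-(4 / 5) : ℝ) :=
    Real.rpow_le_rpow_of_nonpos hz' h1 (by norm_num)
  rw [Real.mul_rpow (by positivity) hy'.le] at h2
  have h3 : ((M : ℝ) / 7) ^ (-(4 / 5) : ℝ) = ((7 : ℝ) / M) ^ (4 / 5 : ℝ) := by
    rw [Real.rpow_neg (by positivity), ← Real.inv_rpow (by positivity), inv_div]
  rw [h3] at h2
  refine le_trans ?_ h2
  gcongr
  exact root_bound hM hw

/-- weight does not decrease when passing to the children -/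
lemma children_weight {y : ℕ} (hy : 1 ≤ y) (hps : ps y ≠ 0) :
    W y ≤ ∑ p ∈ (Lof (y % 7)).toFinset.filter (fun p => ps (child p.1 y) ≠ 0),
      W (child p.1 y) := by
  obtain ⟨h7, h3, h5⟩ := ps_ne hps
  have hi : 1 ≤ y % 7 := by omega
  have hi' : y % 7 < 7 := Nat.mod_lt _ (by norm_num)
  have hmain := main_ineq h7 h3 h5
  have hyp : (0 : ℝ) < (y : ℝ) ^ (-(4 / 5) : ℝ) := by
    have : (0 : ℝ) < y := by exact_mod_cast hy
    positivity
  have hstep : ∑ p ∈ (Lof (y % 7)).toFinset.filter (fun p => ps (child p.1 y) ≠ 0),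
      (ps (child p.1 y) : ℝ) * ((p.2 : ℝ) / 1000000 * (y : ℝ) ^ (-(4 / 5) : ℝ)) ≤
      ∑ p ∈ (Lof (y % 7)).toFinset.filter (fun p => ps (child p.1 y) ≠ 0),
      W (child p.1 y) := by
    refine Finset.sum_le_sum fun p hp => ?_
    rw [Finset.mem_filter, List.mem_toFinset] at hp
    obtain ⟨h1, h2, h2', h4, h5', h6⟩ := Lof_mem hi hi' hp.1
    have hmod : (p.1 * y) % 7 = 1 := by
      rw [Nat.mul_mod, Nat.mod_mod] at h5'
      rw [Nat.mul_mod]
      exact h5'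
    have hz1 : 1 ≤ child p.1 y := by
      have := (ps_ne hp.2).1
      omega
    unfold W
    gcongr
    exact child_weight h1 h6 hy hz1 (child_spec hmod)
  refine le_trans ?_ hstep
  have e : ∑ p ∈ (Lof (y % 7)).toFinset.filter (fun p => ps (child p.1 y) ≠ 0),
      (ps (child p.1 y) : ℝ) * ((p.2 : ℝ) / 1000000 * (y : ℝ) ^ (-(4 / 5) : ℝ)) =
      ((∑ p ∈ (Lof (y % 7)).toFinset, ps (child p.1 y) * p.2 : ℕ) : ℝ) *
        ((y : ℝ) ^ (-(4 / 5) : ℝ) / 1000000) := by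
    rw [Finset.sum_filter, Nat.cast_sum, Finset.sum_mul]
    refine Finset.sum_congr rfl fun p _ => ?_
    split_ifs with h
    · push_cast
      ring
    · rw [not_not] at h
      rw [h]
      simp
  rw [e]
  have hmain' : ((1000000 * ps y : ℕ) : ℝ) ≤
      ((∑ p ∈ (Lof (y % 7)).toFinset, ps (child p.1 y) * p.2 : ℕ) : ℝ) := by exact_mod_cast hmain
  calc W y = ((1000000 * ps y : ℕ) : ℝ) * ((y : ℝ) ^ (-(4 / 5) : ℝ) / 1000000) := by
        unfold W
        push_cast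
        ring
    _ ≤ _ := by gcongr

lemma orbit_one (i : ℕ) : C^[i] 1 = 1 ∨ C^[i] 1 = 8 ∨ C^[i] 1 = 4 ∨ C^[i] 1 = 2 := by
  induction i with
  | zero => left; rfl
  | succ i ih =>
    rw [Function.iterate_succ_apply']
    rcases ih with h | h | h | h <;> rw [h] <;> decide

open Classical in
/-- the numbers up to `X` of the tree of `17` -/
noncomputable def S (X : ℕ) : Finset ℕ :=
  (Finset.Icc 1 X).filter fun z => ps z ≠ 0 ∧ z % 2 = 1 ∧ ∃ i, C^[i] z = 17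

lemma mem_S {X z : ℕ} : z ∈ S X ↔ (1 ≤ z ∧ z ≤ X) ∧ ps z ≠ 0 ∧ z % 2 = 1 ∧ ∃ i, C^[i] z = 17 := by
  classical
  rw [S, Finset.mem_filter, Finset.mem_Icc]

lemma child_mem {X y : ℕ} (hy : y ∈ S X) (hyX : 1429 * y ≤ X) {p : ℕ × ℕ}
    (hp : p ∈ Lof (y % 7)) (hps : ps (child p.1 y) ≠ 0) : child p.1 y ∈ (S X).erase 17 := by
  obtain ⟨⟨hy1, hy2⟩, hy3, hy4, i, hi⟩ := mem_S.1 hy
  obtain ⟨h7, h3, h5⟩ := ps_ne hy3
  obtain ⟨z7, z3, z5⟩ := ps_ne hps
  obtain ⟨g1, g2, g2', g4, g5, g6⟩ := Lof_mem (by omega) (Nat.mod_lt _ (by norm_num)) hp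
  have hmod : (p.1 * y) % 7 = 1 := by
    rw [Nat.mul_mod, Nat.mod_mod] at g5
    rw [Nat.mul_mod]
    exact g5
  have hc := child_spec hmod
  have hodd : child p.1 y % 2 = 1 := by
    obtain ⟨t, ht⟩ : 2 ∣ p.1 := Nat.dvd_of_mod_eq_zero g2'
    have : p.1 * y = 2 * (t * y) := by rw [ht]; ring
    omega
  have hC : C (child p.1 y) = p.1 * y := by
    rw [C_coprime (by omega) z3 z5, hc]
  have hy30 : Nat.Coprime 30 y := coprime30 (by omega) h3 h5
  obtain ⟨j, hj⟩ := reach_mul p.1 g1 g4 y hy30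
  rw [Finset.mem_erase, mem_S]
  refine ⟨fun h17 => ?_, ⟨by omega, ?_⟩, hps, hodd, i + (j + 1), ?_⟩
  · rw [h17] at hc
    have := smooth_unique (M := 120) (M' := p.1) (y := 1) (y' := y) (by decide +kernel) g4
      (by norm_num) hy30 (by norm_num) (by omega)
    have hy1' : y = 1 := this.2.symm
    rw [hy1'] at hi
    rcases orbit_one i with h | h | h | h <;> omega
  · have : p.1 * y ≤ 10000 * y := Nat.mul_le_mul_right _ g2
    omega
  · rw [Function.iterate_add_apply, Function.iterate_succ_apply, hC, hj, hi]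

/-- main counting inequality -/
lemma W17_le (X : ℕ) (hX : 17 ≤ X) :
    W 17 ≤ ∑ y ∈ (S X).filter (fun y => ¬ 1429 * y ≤ X), W y := by
  classical
  have h17 : (17 : ℕ) ∈ S X := mem_S.2 ⟨⟨by norm_num, hX⟩, psi17, by norm_num, 0, rfl⟩
  have h1 : ∑ y ∈ (S X).filter (fun y => 1429 * y ≤ X), W y ≤ ∑ z ∈ (S X).erase 17, W z := by
    have e1 : ∑ y ∈ (S X).filter (fun y => 1429 * y ≤ X), W y ≤
        ∑ y ∈ (S X).filter (fun y => 1429 * y ≤ X),
        ∑ p ∈ (Lof (y % 7)).toFinset.filter (fun p => ps (child p.1 y) ≠ 0),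
          W (child p.1 y) := by
      refine Finset.sum_le_sum fun y hy => ?_
      rw [Finset.mem_filter] at hy
      obtain ⟨⟨hy1, hy2⟩, hy3, -⟩ := mem_S.1 hy.1
      exact children_weight hy1 hy3
    refine e1.trans ?_
    rw [Finset.sum_sigma']
    rw [← Finset.sum_image (f := W) (g := fun x : (_ : ℕ) × (ℕ × ℕ) => child x.2.1 x.1)]
    · refine Finset.sum_le_sum_of_subset_of_nonneg ?_ fun z _ _ => W_nonneg z
      intro z hz
      obtain ⟨⟨y, p⟩, hx, rfl⟩ := Finset.mem_image.1 hz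
      simp only [Finset.mem_sigma, Finset.mem_filter, List.mem_toFinset] at hx
      exact child_mem hx.1.1 hx.1.2 hx.2.1 hx.2.2
    · rintro ⟨y, p⟩ hx ⟨y', p'⟩ hx' heq
      simp only [Finset.coe_sigma, Finset.coe_filter, Set.mem_sigma_iff, Set.mem_ofPred_eq,
        List.mem_toFinset] at hx hx'
      simp only at heq
      obtain ⟨⟨hy, -⟩, hp, -⟩ := hx
      obtain ⟨⟨hy', -⟩, hp', -⟩ := hx'
      obtain ⟨-, hy3, hy4, -⟩ := mem_S.1 hy
      obtain ⟨-, hy3', hy4', -⟩ := mem_S.1 hy'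
      obtain ⟨a7, a3, a5⟩ := ps_ne hy3
      obtain ⟨b7, b3, b5⟩ := ps_ne hy3'
      obtain ⟨g1, -, -, g4, g5, -⟩ := Lof_mem (by omega) (Nat.mod_lt _ (by norm_num)) hp
      obtain ⟨k1, -, -, k4, k5, -⟩ := Lof_mem (by omega) (Nat.mod_lt _ (by norm_num)) hp'
      have hmod : (p.1 * y) % 7 = 1 := by
        rw [Nat.mul_mod, Nat.mod_mod] at g5
        rw [Nat.mul_mod]
        exact g5
      have hmod' : (p'.1 * y') % 7 = 1 := by
        rw [Nat.mul_mod, Nat.mod_mod] at k5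
        rw [Nat.mul_mod]
        exact k5
      have hc := child_spec hmod
      have hc' := child_spec hmod'
      have hEq : p.1 * y = p'.1 * y' := by
        rw [← hc, ← hc', heq]
      obtain ⟨hM, hyy⟩ := smooth_unique g4 k4 (coprime30 (by omega) a3 a5)
        (coprime30 (by omega) b3 b5) g1 hEq
      subst hyy
      have hpp : p = p' := List.inj_on_of_nodup_map
        (fst_nodup (by omega) (Nat.mod_lt _ (by norm_num))) hp hp' hM
      rw [hpp]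
  have h2 := Finset.add_sum_erase (S X) W h17
  have h3 := Finset.sum_filter_add_sum_filter_not (S X) (fun y => 1429 * y ≤ X) W
  linarith

theorem count : ∃ c : ℝ, 0 < c ∧ ∀ X : ℕ, 17 ≤ X → c * (X : ℝ) ^ (4 / 5 : ℝ) ≤ (S X).card := by
  have hW : 0 < W 17 := by
    unfold W
    have : (0 : ℝ) < (ps 17 : ℝ) := by exact_mod_cast Nat.pos_of_ne_zero psi17
    positivity
  refine ⟨W 17 / (16384 * (1429 : ℝ) ^ (4 / 5 : ℝ)), by positivity, fun X hX => ?_⟩
  have hXR : (0 : ℝ) < X := by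
    have : 0 < X := by omega
    exact_mod_cast this
  have h1 := W17_le X hX
  have h2 : ∑ y ∈ (S X).filter (fun y => ¬ 1429 * y ≤ X), W y ≤
      ∑ y ∈ (S X).filter (fun y => ¬ 1429 * y ≤ X),
        (16384 * ((1429 : ℝ) ^ (4 / 5 : ℝ) * (X : ℝ) ^ (-(4 / 5) : ℝ))) := by
    refine Finset.sum_le_sum fun y hy => ?_
    rw [Finset.mem_filter] at hy
    have h3 : X < 1429 * y := by omega
    have h3' : (X : ℝ) / 1429 ≤ y := by
      rw [div_le_iff₀ (by norm_num)]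
      have : (X : ℝ) < 1429 * y := by exact_mod_cast h3
      linarith
    unfold W
    have h4 : (ps y : ℝ) ≤ 16384 := by exact_mod_cast (ps_lt y).le
    have h5 : (y : ℝ) ^ (-(4 / 5) : ℝ) ≤ ((X : ℝ) / 1429) ^ (-(4 / 5) : ℝ) :=
      Real.rpow_le_rpow_of_nonpos (by positivity) h3' (by norm_num)
    have h6 : ((X : ℝ) / 1429) ^ (-(4 / 5) : ℝ) =
        (1429 : ℝ) ^ (4 / 5 : ℝ) * (X : ℝ) ^ (-(4 / 5) : ℝ) := by
      rw [Real.div_rpow hXR.le (by norm_num), Real.rpow_neg (by norm_num : (0 : ℝ) ≤ 1429)]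
      field_simp
    rw [← h6]
    have h7 : (0 : ℝ) ≤ (y : ℝ) ^ (-(4 / 5) : ℝ) := by positivity
    gcongr
  rw [Finset.sum_const, nsmul_eq_mul] at h2
  have h3 : (((S X).filter (fun y => ¬ 1429 * y ≤ X)).card : ℝ) ≤ (S X).card := by
    exact_mod_cast Finset.card_filter_le _ _
  have h4 : W 17 ≤ (S X).card * (16384 * ((1429 : ℝ) ^ (4 / 5 : ℝ) * (X : ℝ) ^ (-(4 / 5) : ℝ))) := by
    refine h1.trans (h2.trans ?_)
    gcongr
  rw [div_mul_eq_mul_div, div_le_iff₀ (by positivity)]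
  calc W 17 * (X : ℝ) ^ (4 / 5 : ℝ) ≤
      ((S X).card * (16384 * ((1429 : ℝ) ^ (4 / 5 : ℝ) * (X : ℝ) ^ (-(4 / 5) : ℝ)))) *
        (X : ℝ) ^ (4 / 5 : ℝ) := by gcongr
    _ = (S X).card * (16384 * (1429 : ℝ) ^ (4 / 5 : ℝ)) := by
      rw [Real.rpow_neg hXR.le]
      field_simp

end Pool.Agent.H56.Kakutani
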