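import Mathlib

set_option autoImplicit false

namespace Pool.Agent.H56.SignGen

open Finset PowerSeries Filter
open scoped PowerSeries.WithPiTopology

/-- The `k`-th factor `1 + ∑_{j ≥ 1} f k j X^{jk}`. -/
noncomputable def facR {R : Type*} [CommRing R] (f : ℕ → ℕ → R) (k : ℕ) : R⟦X⟧ :=
  PowerSeries.mk fun i => if i = 0 then 1 else if k ∣ i then f k (i / k) else 0

/-- The `k`-th factor over the integers. -/
noncomputable abbrev fac (f : ℕ → ℕ → ℤ) (k : ℕ) : ℤ⟦X⟧ := facR f k

theorem coeff_facR {R : Type*} [CommRing R] (f : ℕ → ℕ → R) (k i : ℕ) :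
    coeff i (facR f k) = if i = 0 then 1 else if k ∣ i then f k (i / k) else 0 := by
  simp [facR]

theorem coeff_fac (f : ℕ → ℕ → ℤ) (k i : ℕ) :
    coeff i (fac f k) = if i = 0 then 1 else if k ∣ i then f k (i / k) else 0 := coeff_facR f k i

theorem facR_eq {R : Type*} [CommRing R] [TopologicalSpace R] [T2Space R]
    (f : ℕ → ℕ → R) (k : ℕ) (hk : k ≠ 0) :
    (1 + ∑' j : ℕ, f k (j + 1) • (X : R⟦X⟧) ^ (k * (j + 1))) = facR f k := by
  ext i
  rw [map_add, (Nat.Partition.summable_genFun_term' f hk).map_tsum _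
    (WithPiTopology.continuous_coeff _ _), coeff_facR]
  have hterm : ∀ j, (coeff i) (f k (j + 1) • (X : R⟦X⟧) ^ (k * (j + 1)))
      = if i = k * (j + 1) then f k (j + 1) else 0 := by
    intro j
    rw [map_smul, coeff_X_pow]
    split_ifs <;> simp
  simp_rw [hterm]
  by_cases hi : i = 0
  · subst hi
    have : ∀ j, ¬ (0 = k * (j + 1)) := by
      intro j h
      have : 0 < k * (j + 1) := by positivity
      omega
    simp [this]
  · rw [if_neg hi]
    by_cases hd : k ∣ i
    · obtain ⟨c, rfl⟩ := hd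
      have hc : c ≠ 0 := by rintro rfl; simp at hi
      obtain ⟨c, rfl⟩ := Nat.exists_eq_succ_of_ne_zero hc
      rw [if_pos (Dvd.intro _ rfl), tsum_eq_single c]
      · rw [Nat.mul_div_cancel_left _ (Nat.pos_of_ne_zero hk), coeff_one, if_neg hi, zero_add,
          if_pos rfl]
      · intro b hb
        rw [if_neg]
        intro h
        have := Nat.eq_of_mul_eq_mul_left (Nat.pos_of_ne_zero hk) h
        omega
    · rw [if_neg hd]
      have : ∀ j, ¬ (i = k * (j + 1)) := fun j h => hd ⟨_, h⟩
      simp [this, coeff_one, hi]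

/-- Multiplying by series that are `1` up to degree `m` does not change the coefficient. -/
theorem coeff_mul_of_one (P Q : ℤ⟦X⟧) (m : ℕ) (hQ0 : coeff 0 Q = 1)
    (hQ : ∀ i, 1 ≤ i → i ≤ m → coeff i Q = 0) : coeff m (P * Q) = coeff m P := by
  rw [coeff_mul, Finset.sum_eq_single (m, 0)]
  · rw [hQ0, mul_one]
  · intro b hb hne
    rw [Finset.HasAntidiagonal.mem_antidiagonal] at hb
    have h2 : b.2 ≠ 0 := by
      intro h0
      apply hne
      ext
      · simp; omega
      · simpa using h0
    rw [hQ b.2 (by omega) (by omega), mul_zero]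
  · intro h
    exact absurd (Finset.HasAntidiagonal.mem_antidiagonal.mpr (by simp)) h

theorem prod_one_upto {ι : Type*} [DecidableEq ι] (s : Finset ι) (g : ι → ℤ⟦X⟧) (m : ℕ)
    (h0 : ∀ i ∈ s, coeff 0 (g i) = 1) (h : ∀ i ∈ s, ∀ n, 1 ≤ n → n ≤ m → coeff n (g i) = 0) :
    coeff 0 (∏ i ∈ s, g i) = 1 ∧ ∀ n, 1 ≤ n → n ≤ m → coeff n (∏ i ∈ s, g i) = 0 := by
  induction s using Finset.induction_on with
  | empty =>
    simp only [prod_empty]
    refine ⟨by simp, fun n h1 h2 => ?_⟩
    rw [coeff_one, if_neg (by omega)]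
  | insert a s ha ih =>
    obtain ⟨i0, i1⟩ := ih (fun i hi => h0 i (mem_insert_of_mem hi))
      (fun i hi => h i (mem_insert_of_mem hi))
    rw [prod_insert ha, mul_comm]
    constructor
    · rw [coeff_mul_of_one _ _ 0 (h0 a (mem_insert_self _ _)) (by intro i h1 h2; omega), i0]
    · intro n h1 h2
      rw [coeff_mul_of_one _ _ n (h0 a (mem_insert_self _ _))
        (fun i hi1 hi2 => h a (mem_insert_self _ _) i hi1 (by omega)), i1 n h1 h2]

/-- The signed partition sum is a coefficient of the finite product. -/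
theorem sum_eq_coeff (f : ℕ → ℕ → ℤ) (N m : ℕ) (hm : m ≤ N) :
    (∑ p : Nat.Partition m, ∏ i ∈ p.parts.toFinset, f i (p.parts.count i))
      = coeff m (∏ k ∈ Icc 1 N, fac f k) := by
  have h1 : (∑ p : Nat.Partition m, ∏ i ∈ p.parts.toFinset, f i (p.parts.count i))
      = coeff m (Nat.Partition.genFun f) := by
    rw [Nat.Partition.coeff_genFun]
    rfl
  rw [h1]
  have h2 := Nat.Partition.hasProd_genFun f
  rw [HasProd, WithPiTopology.tendsto_iff_coeff_tendsto] at h2
  have h3 := h2 m
  rw [nhds_discrete, tendsto_pure] at h3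
  simp only [SummationFilter.unconditional_filter, eventually_atTop] at h3
  obtain ⟨s, hs⟩ := h3
  have h4 := hs (s ∪ range N) subset_union_left
  rw [← h4]
  have h5 := fun (i : ℕ) => facR_eq f (i + 1) (by omega)
  simp_rw [h5]
  have h6 : s ∪ range N = range N ∪ (s \ range N) := by
    ext x; simp only [Finset.mem_union, Finset.mem_sdiff]; tauto
  rw [h6, prod_union (disjoint_sdiff)]
  have h7 := prod_one_upto (s \ range N) (fun i => fac f (i + 1)) m
    (fun i _ => by rw [coeff_fac, if_pos rfl])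
    (fun i hi n hn1 hn2 => by
      have hi' : N ≤ i := by
        have := (Finset.mem_sdiff.mp hi).2
        rw [mem_range] at this
        omega
      rw [coeff_fac, if_neg (by omega), if_neg]
      intro hd
      have := Nat.le_of_dvd (by omega) hd
      omega)
  rw [coeff_mul_of_one _ _ m h7.1 h7.2]
  have h8 : ∏ i ∈ range N, fac f (i + 1) = ∏ k ∈ Icc 1 N, fac f k := by
    rw [← Finset.Ico_add_one_right_eq_Icc, Finset.prod_Ico_eq_prod_range]
    simp only [Nat.add_sub_cancel]
    exact prod_congr rfl fun i _ => by rw [add_comm]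
  rw [h8]

end Pool.Agent.H56.SignGen
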