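import Pool.Agent.H56.SignGen

set_option autoImplicit false

namespace Pool.Agent.H56.SignSearch

open Finset PowerSeries
open Pool.Agent.H56.SignGen

/-! ### Truncated evaluation at `251` -/

/-- truncated evaluation at `251` -/
noncomputable def E (n : ℕ) (F : ℤ⟦X⟧) : ℤ := ∑ i ∈ range n, coeff i F * 251 ^ i

theorem E_congr (n : ℕ) (F G : ℤ⟦X⟧) (h : ∀ i < n, coeff i F = coeff i G) : E n F = E n G :=
  sum_congr rfl fun i hi => by rw [h i (mem_range.mp hi)]

theorem E_add (n : ℕ) (F G : ℤ⟦X⟧) : E n (F + G) = E n F + E n G := by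
  simp only [E, map_add, add_mul, sum_add_distrib]

theorem E_C_mul (n : ℕ) (a : ℤ) (F : ℤ⟦X⟧) : E n (C a * F) = a * E n F := by
  simp only [E, coeff_C_mul, mul_sum, mul_assoc]

theorem E_mod {n N : ℕ} (h : n ≤ N) (F : ℤ⟦X⟧) : E N F ≡ E n F [ZMOD 251 ^ n] := by
  rw [Int.modEq_iff_dvd, ← dvd_neg]
  have : -(E n F - E N F) = ∑ i ∈ Ico n N, coeff i F * 251 ^ i := by
    rw [E, E, neg_sub, Finset.sum_Ico_eq_sub _ h]
  rw [this]
  refine dvd_sum fun i hi => Dvd.dvd.mul_left (pow_dvd_pow _ (mem_Ico.mp hi).1) _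

theorem E_X_pow (n d : ℕ) : E n (X ^ d) ≡ 251 ^ d [ZMOD 251 ^ n] := by
  by_cases h : d < n
  · have : E n (X ^ d) = 251 ^ d := by
      rw [E, Finset.sum_eq_single d]
      · rw [coeff_X_pow, if_pos rfl, one_mul]
      · intro b _ hb
        rw [coeff_X_pow, if_neg hb, zero_mul]
      · intro h'; exact absurd (mem_range.mpr h) h'
    rw [this]
  · have : E n (X ^ d) = 0 := by
      rw [E]
      refine sum_eq_zero fun i hi => ?_
      rw [coeff_X_pow, if_neg (by have := mem_range.mp hi; omega), zero_mul]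
    rw [this, Int.modEq_iff_dvd, sub_zero]
    exact pow_dvd_pow _ (not_lt.mp h)

theorem E_one (n : ℕ) : E n 1 ≡ 1 [ZMOD 251 ^ n] := by
  have := E_X_pow n 0
  simpa using this

theorem E_eq_eval (n : ℕ) (F : ℤ⟦X⟧) : E n F = (trunc n F).eval 251 := by
  rcases Nat.eq_zero_or_pos n with h | h
  · subst h; simp [E]
  · rw [Polynomial.eval_eq_sum_range' (n := n)]
    · refine sum_congr rfl fun i hi => ?_
      rw [coeff_trunc, if_pos (mem_range.mp hi)]
    · obtain ⟨m, rfl⟩ := Nat.exists_eq_succ_of_ne_zero h.ne'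
      exact natDegree_trunc_lt F m

theorem E_mul (n : ℕ) (F G : ℤ⟦X⟧) : E n (F * G) ≡ E n F * E n G [ZMOD 251 ^ n] := by
  rw [E_eq_eval n F, E_eq_eval n G, ← Polynomial.eval_mul]
  set P := trunc n F * trunc n G with hP
  have h1 : E n (F * G) = ∑ i ∈ range n, P.coeff i * 251 ^ i := by
    refine sum_congr rfl fun i hi => ?_
    rw [coeff_mul_eq_coeff_trunc_mul_trunc F G (mem_range.mp hi), ← Polynomial.coe_mul,
      Polynomial.coeff_coe]
  have h2 : P.eval 251 = ∑ i ∈ range (n + (P.natDegree + 1)), P.coeff i * 251 ^ i :=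
    Polynomial.eval_eq_sum_range' (by omega) _
  rw [h1, h2, Int.modEq_iff_dvd]
  have h3 : ∑ i ∈ range (n + (P.natDegree + 1)), P.coeff i * (251 : ℤ) ^ i
      - ∑ i ∈ range n, P.coeff i * 251 ^ i
      = ∑ i ∈ Ico n (n + (P.natDegree + 1)), P.coeff i * 251 ^ i := by
    rw [Finset.sum_Ico_eq_sub _ (by omega)]
  rw [h3]
  exact dvd_sum fun i hi => Dvd.dvd.mul_left (pow_dvd_pow _ (mem_Ico.mp hi).1) _

/-! ### The search -/

inductive Ev
  | two (k dA pp pm mp mm : ℕ)
  | one (m p np o q add : ℕ)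

def okP (d : ℕ) : Bool := or (Nat.ble d 1) (Nat.beq d 250)
def okM (d : ℕ) : Bool := and (Nat.ble 1 d) (Nat.ble d 3)

def force (n : ℕ) (f : ℕ → Bool) : Bool := match n with
  | 0 => f 0
  | m + 1 => f (Nat.succ m)

theorem force_eq (n : ℕ) (f : ℕ → Bool) : force n f = f n := by
  cases n <;> rfl

def dfs (M : ℕ) : List Ev → ℕ → ℕ → Bool
  | [], _, _ => false
  | Ev.two _ dA pp pm mp mm :: t, P, mem =>
    match Nat.beq (Nat.mod (Nat.div mem dA) 2) 1 with
    | true =>
      and (force (Nat.mod (Nat.mul P pp) M) fun P' => dfs M t P' mem)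
        (force (Nat.mod (Nat.mul P pm) M) fun P' => dfs M t P' mem)
    | false =>
      and (force (Nat.mod (Nat.mul P mp) M) fun P' => dfs M t P' mem)
        (force (Nat.mod (Nat.mul P mm) M) fun P' => dfs M t P' mem)
  | Ev.one _ p np o q add :: t, P, mem =>
    force (Nat.div (Nat.mod (Nat.add P o) q) p) fun d =>
      and (match okP d with
        | true => force (Nat.mod (Nat.add P (Nat.mul P p)) M) fun P' =>
            force (Nat.lor mem add) fun mem' => dfs M t P' mem'
        | false => true)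
        (match okM d with
        | true => force (Nat.mod (Nat.add P (Nat.mul P np)) M) fun P' => dfs M t P' mem
        | false => true)

/-- ratio check -/
def chkR (k rho : ℕ) (A B : ℤ) : Bool :=
  decide ((((1 + A * Int.ofNat (Nat.pow 251 k)) * Int.ofNat rho * (1 - Int.ofNat (Nat.pow 251 (2 * k)))
    - (1 + A * Int.ofNat (Nat.pow 251 k) + (B - 1) * Int.ofNat (Nat.pow 251 (2 * k))))
      % Int.ofNat (Nat.pow 251 49)) = 0)

/-- geometric sum `∑_{i ≤ m} 251^i` -/
def geo : ℕ → ℕ
  | 0 => 1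
  | m + 1 => geo m + 251 ^ (m + 1)

def chk : List Ev → List ℕ → Bool
  | [], _ => true
  | Ev.two k dA pp pm mp mm :: t, r =>
    decide (1 ≤ k) && decide (k ≤ 48) && decide (r.getD k 0 = 1) && decide (dA = 2 ^ k) &&
      chkR k pp 1 1 && chkR k pm 1 (-1) && chkR k mp (-1) 1 && chkR k mm (-1) (-1) &&
      chk t (r.set k 2)
  | Ev.one m p np o q add :: t, r =>
    decide (1 ≤ m) && decide (m ≤ 48) && decide (r.getD m 0 = 0) && decide (p = 251 ^ m) &&
      decide ((np + 251 ^ m) % 251 ^ 49 = 0) && decide (o = geo m) && decide (q = 251 ^ (m + 1)) &&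
      decide (add = 2 ^ m) &&
      (List.range 48).all (fun k => decide ((r.set m 1).getD (k + 1) 0 = 2 ∨
        m < (k + 1) * ((r.set m 1).getD (k + 1) 0 + 1))) &&
      chk t (r.set m 1)

section sound

variable (A B : ℕ → ℤ)

/-- the sign pattern with period two -/
def pat : ℕ → ℕ → ℤ := fun k j => if j % 2 = 1 then A k else B k

/-- partial factors -/
noncomputable def fp (k r : ℕ) : ℤ⟦X⟧ :=
  if r = 0 then 1 else if r = 1 then 1 + C (A k) * X ^ k else fac (pat A B) k

theorem fac_mul (k : ℕ) (hk : 1 ≤ k) :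
    fac (pat A B) k * (1 - X ^ (2 * k)) = 1 + C (A k) * X ^ k + C (B k - 1) * X ^ (2 * k) := by
  ext i
  rw [mul_sub, mul_one, map_sub, mul_comm _ (X ^ (2 * k)), coeff_X_pow_mul', map_add, map_add,
    coeff_C_mul, coeff_C_mul, coeff_X_pow, coeff_X_pow, coeff_one, coeff_fac, coeff_fac]
  by_cases h0 : i = 0
  · subst h0
    have h1 : ¬ (2 * k ≤ 0) := by omega
    have h2 : ¬ (0 = k) := by omega
    have h3 : ¬ (0 = 2 * k) := by omega
    simp [h2, h3]
    omega
  · by_cases h1 : 2 * k ≤ i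
    · rw [if_neg h0, if_pos h1, if_neg h0]
      by_cases h2 : i = 2 * k
      · subst h2
        have h3 : ¬ (2 * k = k) := by omega
        have h4 : k ∣ 2 * k := Dvd.intro_left 2 rfl
        have h5 : 2 * k / k = 2 := Nat.mul_div_cancel _ (by omega)
        simp [h3, h5, pat]
      · have h3 : ¬ (i - 2 * k = 0) := by omega
        have h4 : ¬ (i = k) := by omega
        rw [if_neg h3, if_neg h4, if_neg h2]
        by_cases h5 : k ∣ i
        · obtain ⟨c, rfl⟩ := h5
          have h6 : k * c - 2 * k = k * (c - 2) := by rw [Nat.mul_sub]; ring_nf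
          have hc : 2 ≤ c := by
            by_contra hc
            have : k * c < 2 * k := by nlinarith
            omega
          have h7 : pat A B k c = pat A B k (c - 2) := by
            unfold pat
            have : c % 2 = (c - 2) % 2 := by omega
            rw [this]
          rw [h6, if_pos (Dvd.intro _ rfl), if_pos (Dvd.intro _ rfl),
            Nat.mul_div_cancel_left _ (by omega), Nat.mul_div_cancel_left _ (by omega), h7]
          ring
        · have h6 : ¬ (k ∣ i - 2 * k) := by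
            intro h
            apply h5
            have := (Nat.dvd_add_right h).mpr (Dvd.intro_left 2 rfl : k ∣ 2 * k)
            rwa [Nat.sub_add_cancel h1] at this
          rw [if_neg h5, if_neg h6]
          ring
    · rw [if_neg h0, if_neg h1, if_neg h0, if_neg (by omega : ¬ (i = 2 * k))]
      by_cases h2 : i = k
      · subst h2
        simp [pat, Nat.div_self (show 0 < i by omega)]
      · have h3 : ¬ (k ∣ i) := by
          rintro ⟨c, rfl⟩
          have hc : c ≠ 0 := by rintro rfl; simp at h0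
          have hc1 : c ≠ 1 := by rintro rfl; simp at h2
          have : 2 ≤ c := by omega
          nlinarith
        rw [if_neg h2, if_neg h3]
        ring

/-- the product of the partial factors -/
noncomputable def Prd (r : List ℕ) : ℤ⟦X⟧ := ∏ k ∈ Icc 1 48, fp A B k (r.getD k 0)

/-- the product over the other indices -/
noncomputable def Rest (r : List ℕ) (k : ℕ) : ℤ⟦X⟧ :=
  ∏ j ∈ (Icc 1 48).erase k, fp A B j (r.getD j 0)

theorem Prd_eq (r : List ℕ) (k : ℕ) (h1 : 1 ≤ k) (h2 : k ≤ 48) :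
    Prd A B r = Rest A B r k * fp A B k (r.getD k 0) := by
  rw [Prd, Rest, Finset.prod_erase_mul _ _ (mem_Icc.mpr ⟨h1, h2⟩)]

theorem getD_set_self (r : List ℕ) (k v : ℕ) (hk : k < r.length) : (r.set k v).getD k 0 = v := by
  simp [List.getD_eq_getElem?_getD, hk]

theorem getD_set_ne (r : List ℕ) (k j v : ℕ) (hk : j ≠ k) : (r.set k v).getD j 0 = r.getD j 0 := by
  simp [List.getD_eq_getElem?_getD, List.getElem?_set_ne (Ne.symm hk)]

theorem Prd_set (r : List ℕ) (hr : r.length = 49) (k v : ℕ) (h1 : 1 ≤ k) (h2 : k ≤ 48) :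
    Prd A B (r.set k v) = Rest A B r k * fp A B k v := by
  rw [Prd_eq A B (r.set k v) k h1 h2, getD_set_self r k v (by omega)]
  congr 1
  refine prod_congr rfl fun j hj => ?_
  rw [getD_set_ne r k j v (ne_of_mem_erase hj)]

theorem modM (x : ℕ) : ((x % 251 ^ 49 : ℕ) : ℤ) ≡ (x : ℤ) [ZMOD 251 ^ 49] := by
  push_cast
  exact Int.mod_modEq _ _

theorem ratio_step (R : ℤ⟦X⟧) (k rho P : ℕ) (hk : 1 ≤ k)
    (hP : (P : ℤ) ≡ E 49 (R * fp A B k 1) [ZMOD 251 ^ 49]) (hc : chkR k rho (A k) (B k) = true) :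
    ((Nat.mod (Nat.mul P rho) (251 ^ 49) : ℕ) : ℤ) ≡ E 49 (R * fp A B k 2) [ZMOD 251 ^ 49] := by
  have h0 : ((Nat.mod (Nat.mul P rho) (251 ^ 49) : ℕ) : ℤ) ≡ (P : ℤ) * rho [ZMOD 251 ^ 49] := by
    have := modM (P * rho)
    push_cast at this
    exact_mod_cast this
  refine h0.trans ?_
  have hc' : (251 : ℤ) ^ 49 ∣ (1 + A k * 251 ^ k) * rho * (1 - 251 ^ (2 * k))
      - (1 + A k * 251 ^ k + (B k - 1) * 251 ^ (2 * k)) := by
    rw [chkR, decide_eq_true_eq] at hc
    have e1 : ∀ n : ℕ, Int.ofNat (Nat.pow 251 n) = (251 : ℤ) ^ n := by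
      intro n
      change ((251 ^ n : ℕ) : ℤ) = 251 ^ n
      push_cast
      rfl
    rw [e1, e1, e1] at hc
    exact Int.dvd_of_emod_eq_zero hc
  have e2 : fp A B k 1 = 1 + C (A k) * X ^ k := by simp [fp]
  have e3 : fp A B k 2 = fac (pat A B) k := by simp [fp]
  rw [e2] at hP
  rw [e3]
  have h1 : E 49 (1 + C (A k) * X ^ k) ≡ 1 + A k * 251 ^ k [ZMOD 251 ^ 49] := by
    rw [E_add, E_C_mul]
    exact (E_one 49).add ((Int.ModEq.refl _).mul (E_X_pow 49 k))
  have h2 : (P : ℤ) ≡ E 49 R * (1 + A k * 251 ^ k) [ZMOD 251 ^ 49] :=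
    (hP.trans (E_mul 49 _ _)).trans ((Int.ModEq.refl _).mul h1)
  have h3 : E 49 (1 - X ^ (2 * k)) ≡ 1 - 251 ^ (2 * k) [ZMOD 251 ^ 49] := by
    have : (1 : ℤ⟦X⟧) - X ^ (2 * k) = 1 + C (-1) * X ^ (2 * k) := by simp [sub_eq_add_neg]
    rw [this, E_add, E_C_mul, sub_eq_add_neg, ← neg_one_mul ((251 : ℤ) ^ (2 * k))]
    exact (E_one 49).add ((Int.ModEq.refl _).mul (E_X_pow 49 (2 * k)))
  have h4 : E 49 (R * fac (pat A B) k) * (1 - 251 ^ (2 * k))
      ≡ E 49 R * (1 + A k * 251 ^ k + (B k - 1) * 251 ^ (2 * k)) [ZMOD 251 ^ 49] := by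
    have a1 : E 49 (R * fac (pat A B) k) * (1 - 251 ^ (2 * k))
        ≡ E 49 ((R * fac (pat A B) k) * (1 - X ^ (2 * k))) [ZMOD 251 ^ 49] :=
      (((E_mul 49 _ _).trans ((Int.ModEq.refl _).mul h3))).symm
    refine a1.trans ?_
    rw [mul_assoc, fac_mul A B k hk]
    refine (E_mul 49 _ _).trans ((Int.ModEq.refl _).mul ?_)
    rw [E_add, E_add, E_C_mul, E_C_mul]
    exact ((E_one 49).add ((Int.ModEq.refl _).mul (E_X_pow 49 k))).add
      ((Int.ModEq.refl _).mul (E_X_pow 49 (2 * k)))
  have h5 : ((P : ℤ) * rho) * (1 - 251 ^ (2 * k))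
      ≡ E 49 (R * fac (pat A B) k) * (1 - 251 ^ (2 * k)) [ZMOD 251 ^ 49] := by
    have a1 : ((P : ℤ) * rho) * (1 - 251 ^ (2 * k))
        ≡ (E 49 R * (1 + A k * 251 ^ k) * rho) * (1 - 251 ^ (2 * k)) [ZMOD 251 ^ 49] :=
      (h2.mul_right _).mul_right _
    refine (a1.trans ?_).trans h4.symm
    rw [Int.modEq_iff_dvd]
    obtain ⟨c, hc''⟩ := hc'
    refine ⟨-(E 49 R * c), ?_⟩
    linear_combination -(E 49 R) * hc''
  -- cancel
  rw [Int.modEq_iff_dvd] at h5 ⊢
  rw [← sub_mul] at h5
  have hcop : IsCoprime ((251 : ℤ) ^ 49) (1 - 251 ^ (2 * k)) := by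
    apply IsCoprime.pow_left
    obtain ⟨j, hj⟩ : ∃ j, 2 * k = j + 1 := ⟨2 * k - 1, by omega⟩
    rw [hj, pow_succ]
    exact ⟨251 ^ j, 1, by ring⟩
  exact hcop.dvd_of_dvd_mul_right h5


theorem coeff_prod_congr {ι : Type*} [DecidableEq ι] (s : Finset ι) (g h : ι → ℤ⟦X⟧) (m : ℕ)
    (H : ∀ i ∈ s, ∀ n ≤ m, coeff n (g i) = coeff n (h i)) :
    ∀ n ≤ m, coeff n (∏ i ∈ s, g i) = coeff n (∏ i ∈ s, h i) := by
  induction s using Finset.induction_on with
  | empty => intro n _; rfl
  | insert a s ha ih =>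
    intro n hn
    have ih' := ih (fun i hi => H i (mem_insert_of_mem hi))
    rw [prod_insert ha, prod_insert ha, coeff_mul, coeff_mul]
    refine sum_congr rfl fun x hx => ?_
    have hx' := Finset.HasAntidiagonal.mem_antidiagonal.mp hx
    rw [H a (mem_insert_self _ _) x.1 (by omega), ih' x.2 (by omega)]

theorem coeff_zero_fp (k r : ℕ) (hk : 1 ≤ k) : coeff 0 (fp A B k r) = 1 := by
  unfold fp
  split_ifs
  · simp
  · rw [map_add, coeff_C_mul, coeff_X_pow, if_neg (by omega)]
    simp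
  · rw [coeff_fac, if_pos rfl]

theorem coeff_zero_prod {ι : Type*} [DecidableEq ι] (s : Finset ι) (g : ι → ℤ⟦X⟧)
    (H : ∀ i ∈ s, coeff 0 (g i) = 1) : coeff 0 (∏ i ∈ s, g i) = 1 := by
  rw [coeff_zero_eq_constantCoeff_apply, map_prod]
  refine prod_eq_one fun i hi => ?_
  rw [← coeff_zero_eq_constantCoeff_apply]
  exact H i hi

theorem coeff_fp_eq (k r m : ℕ) (hk : 1 ≤ k) (h : r = 2 ∨ m < k * (r + 1)) (n : ℕ) (hn : n ≤ m) :
    coeff n (fp A B k r) = coeff n (fac (pat A B) k) := by
  rcases h with h | h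
  · subst h; simp [fp]
  · unfold fp
    by_cases h0 : r = 0
    · subst h0
      rw [if_pos rfl, coeff_one, coeff_fac]
      by_cases hn0 : n = 0
      · simp [hn0]
      · rw [if_neg hn0, if_neg hn0, if_neg]
        intro hd
        have := Nat.le_of_dvd (by omega) hd
        omega
    · rw [if_neg h0]
      by_cases h1 : r = 1
      · subst h1
        rw [if_pos rfl, map_add, coeff_C_mul, coeff_X_pow, coeff_one, coeff_fac]
        by_cases hn0 : n = 0
        · subst hn0
          rw [if_pos rfl, if_pos rfl, if_neg (by omega)]; ring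
        · rw [if_neg hn0, if_neg hn0]
          by_cases hnk : n = k
          · subst hnk
            simp [pat, Nat.div_self (show 0 < n by omega)]
          · rw [if_neg hnk, if_neg]
            · ring
            · rintro ⟨c, rfl⟩
              have hc0 : c ≠ 0 := by rintro rfl; simp at hn0
              have hc1 : c ≠ 1 := by rintro rfl; simp at hnk
              have : 2 ≤ c := by omega
              nlinarith
      · rw [if_neg h1]

theorem geo_eq (m : ℕ) : ((geo m : ℕ) : ℤ) = ∑ i ∈ range (m + 1), (251 : ℤ) ^ i := by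
  induction m with
  | zero => simp [geo]
  | succ m ih => rw [geo, sum_range_succ, ← ih]; push_cast; ring

/-- the digit test -/
theorem digit_test (F0 F1 : ℤ⟦X⟧) (m P : ℕ) (am : ℤ) (hm1 : 1 ≤ m) (hm : m ≤ 48)
    (hF : F1 = F0 * (1 + C am * X ^ m)) (h0 : coeff 0 F0 = 1)
    (hval : ∀ i ≤ m, |coeff i F1| ≤ 1)
    (hP : (P : ℤ) ≡ E 49 F0 [ZMOD 251 ^ 49]) :
    (am = 1 → okP (Nat.div (Nat.mod (Nat.add P (geo m)) (251 ^ (m + 1))) (251 ^ m)) = true) ∧
    (am = -1 → okM (Nat.div (Nat.mod (Nat.add P (geo m)) (251 ^ (m + 1))) (251 ^ m)) = true) := by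
  have hco : ∀ i, coeff i F1 = coeff i F0 + am * (if m ≤ i then coeff (i - m) F0 else 0) := by
    intro i
    rw [hF, mul_add, mul_one, map_add]
    congr 1
    have : F0 * (C am * X ^ m) = C am * (X ^ m * F0) := by ring
    rw [this, coeff_C_mul, coeff_X_pow_mul']
  have hlow : ∀ i < m, coeff i F0 = coeff i F1 := by
    intro i hi
    rw [hco, if_neg (by omega)]; ring
  have htop : coeff m F0 = coeff m F1 - am := by
    rw [hco, if_pos le_rfl, Nat.sub_self, h0]; ring
  -- E (m+1) F0
  have hE : E (m + 1) F0 = ∑ i ∈ range m, coeff i F1 * 251 ^ i + (coeff m F1 - am) * 251 ^ m := by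
    rw [E, sum_range_succ, htop]
    congr 1
    exact sum_congr rfl fun i hi => by rw [hlow i (mem_range.mp hi)]
  have hPm : (P : ℤ) ≡ E (m + 1) F0 [ZMOD 251 ^ (m + 1)] :=
    (hP.of_dvd (pow_dvd_pow _ (by omega))).trans (E_mod (by omega) F0)
  set T : ℤ := ∑ i ∈ range m, (coeff i F1 + 1) * 251 ^ i with hT
  have hT0 : 0 ≤ T := by
    refine sum_nonneg fun i hi => mul_nonneg ?_ (by positivity)
    have := abs_le.mp (hval i (mem_range.mp hi).le)
    linarith
  have hT1 : T < 251 ^ m := by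
    have h1 : T ≤ ∑ i ∈ range m, 2 * (251 : ℤ) ^ i := by
      refine sum_le_sum fun i hi => mul_le_mul_of_nonneg_right ?_ (by positivity)
      have := abs_le.mp (hval i (mem_range.mp hi).le)
      linarith
    have h2 : ∀ n : ℕ, ∑ i ∈ range n, 2 * (251 : ℤ) ^ i < 251 ^ n := by
      intro n
      induction n with
      | zero => simp
      | succ n ih =>
        rw [sum_range_succ, pow_succ]
        have : (0 : ℤ) < 251 ^ n := by positivity
        nlinarith
    exact h1.trans_lt (h2 m)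
  set c : ℤ := coeff m F1 + 1 - am with hc
  have hsum : ((Nat.add P (geo m) : ℕ) : ℤ) ≡ T + c * 251 ^ m [ZMOD 251 ^ (m + 1)] := by
    have h1 : ((Nat.add P (geo m) : ℕ) : ℤ) = P + ∑ i ∈ range (m + 1), (251 : ℤ) ^ i := by
      rw [← geo_eq]
      change ((P + geo m : ℕ) : ℤ) = _
      push_cast; rfl
    rw [h1]
    refine (hPm.add_right _).trans ?_
    rw [hE, sum_range_succ]
    have : ∑ i ∈ range m, coeff i F1 * 251 ^ i + (coeff m F1 - am) * 251 ^ m
        + (∑ i ∈ range m, (251 : ℤ) ^ i + 251 ^ m) = T + c * 251 ^ m := by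
      rw [hT, hc]
      simp only [add_mul, sum_add_distrib, one_mul]
      ring
    rw [this]
  -- extraction
  have hext : ∀ c' : ℕ, c' < 251 → (c ≡ c' [ZMOD 251]) →
      Nat.div (Nat.mod (Nat.add P (geo m)) (251 ^ (m + 1))) (251 ^ m) = c' := by
    intro c' hc' hcc
    obtain ⟨T', hT'⟩ := Int.eq_ofNat_of_zero_le hT0
    have hT'1 : T' < 251 ^ m := by
      have : ((T' : ℕ) : ℤ) < ((251 ^ m : ℕ) : ℤ) := by push_cast; rw [← hT']; exact hT1
      exact_mod_cast this
    have h1 : ((Nat.add P (geo m) : ℕ) : ℤ) ≡ ((T' + c' * 251 ^ m : ℕ) : ℤ) [ZMOD ((251 ^ (m + 1) : ℕ) : ℤ)] := by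
      push_cast
      refine hsum.trans ?_
      rw [← hT']
      refine (Int.ModEq.refl _).add ?_
      rw [pow_succ, mul_comm c, mul_comm (c' : ℤ)]
      exact Int.ModEq.mul_left' hcc
    rw [Int.natCast_modEq_iff] at h1
    have h2 : T' + c' * 251 ^ m < 251 ^ (m + 1) := by
      rw [pow_succ]
      have : (c' + 1) * 251 ^ m ≤ 251 * 251 ^ m := Nat.mul_le_mul_right _ (by omega)
      nlinarith
    have h3 : Nat.mod (Nat.add P (geo m)) (251 ^ (m + 1)) = T' + c' * 251 ^ m := by
      have := h1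
      unfold Nat.ModEq at this
      rw [Nat.mod_eq_of_lt h2] at this
      exact this
    rw [h3]
    change (T' + c' * 251 ^ m) / 251 ^ m = c'
    rw [Nat.add_mul_div_right _ _ (by positivity), Nat.div_eq_of_lt hT'1, zero_add]
  have hb := abs_le.mp (hval m le_rfl)
  constructor
  · intro h
    have h1 : c = -1 ∨ c = 0 ∨ c = 1 := by omega
    rcases h1 with h1 | h1 | h1
    · rw [hext 250 (by norm_num) (by rw [h1]; decide)]; decide
    · rw [hext 0 (by norm_num) (by rw [h1]; rfl)]; decide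
    · rw [hext 1 (by norm_num) (by rw [h1]; rfl)]; decide
  · intro h
    have h1 : c = 1 ∨ c = 2 ∨ c = 3 := by omega
    rcases h1 with h1 | h1 | h1
    · rw [hext 1 (by norm_num) (by rw [h1]; rfl)]; decide
    · rw [hext 2 (by norm_num) (by rw [h1]; rfl)]; decide
    · rw [hext 3 (by norm_num) (by rw [h1]; rfl)]; decide


theorem one_step (F0 : ℤ⟦X⟧) (m x P : ℕ) (am : ℤ) (hx : (x : ℤ) ≡ am * 251 ^ m [ZMOD 251 ^ 49])
    (hP : (P : ℤ) ≡ E 49 F0 [ZMOD 251 ^ 49]) :
    ((Nat.mod (Nat.add P (Nat.mul P x)) (251 ^ 49) : ℕ) : ℤ)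
      ≡ E 49 (F0 * (1 + C am * X ^ m)) [ZMOD 251 ^ 49] := by
  have h0 : ((Nat.mod (Nat.add P (Nat.mul P x)) (251 ^ 49) : ℕ) : ℤ)
      ≡ (P : ℤ) * (1 + x) [ZMOD 251 ^ 49] := by
    have h1 := modM (P + P * x)
    have e : ((P + P * x : ℕ) : ℤ) = P * (1 + x) := by rw [Nat.cast_add, Nat.cast_mul]; ring
    rw [e] at h1
    exact h1
  refine h0.trans ?_
  refine ((hP.mul ((Int.ModEq.refl 1).add hx)).trans ?_)
  refine (((Int.ModEq.refl _).mul ?_).trans (E_mul 49 _ _).symm)
  rw [E_add, E_C_mul]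
  exact ((E_one 49).add ((Int.ModEq.refl _).mul (E_X_pow 49 m))).symm

theorem sound (hA : ∀ k, A k = 1 ∨ A k = -1) (hB : ∀ k, B k = 1 ∨ B k = -1)
    (hval : ∀ m ≤ 48, |coeff m (∏ k ∈ Icc 1 48, fac (pat A B) k)| ≤ 1) :
    ∀ (evs : List Ev) (r : List ℕ) (P mem : ℕ), r.length = 49 → chk evs r = true →
      ((P : ℤ) ≡ E 49 (Prd A B r) [ZMOD 251 ^ 49]) →
      (∀ k, 1 ≤ k → k ≤ 48 → (mem.testBit k = true ↔ (1 ≤ r.getD k 0 ∧ A k = 1))) →
      dfs (251 ^ 49) evs P mem = false := by
  intro evs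
  induction evs with
  | nil => intro r P mem _ _ _ _; rfl
  | cons ev t ih =>
    intro r P mem hr hchk hP hmem
    cases ev with
    | two k dA pp pm mp mm =>
      simp only [chk, Bool.and_eq_true, decide_eq_true_eq] at hchk
      obtain ⟨⟨⟨⟨⟨⟨⟨⟨hk1, hk2⟩, hrk⟩, hdA⟩, cpp⟩, cpm⟩, cmp⟩, cmm⟩, hct⟩ := hchk
      have hP1 : (P : ℤ) ≡ E 49 (Rest A B r k * fp A B k 1) [ZMOD 251 ^ 49] := by
        rw [Prd_eq A B r k hk1 hk2, hrk] at hP; exact hP
      have hlen : (r.set k 2).length = 49 := by rw [List.length_set, hr]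
      have hmem' : ∀ j, 1 ≤ j → j ≤ 48 →
          (mem.testBit j = true ↔ (1 ≤ (r.set k 2).getD j 0 ∧ A j = 1)) := by
        intro j hj1 hj2
        rw [hmem j hj1 hj2]
        by_cases hjk : j = k
        · subst hjk
          rw [getD_set_self r j 2 (by omega), hrk]
          simp
        · rw [getD_set_ne r k j 2 hjk]
      have step : ∀ rho : ℕ, chkR k rho (A k) (B k) = true →
          dfs (251 ^ 49) t (Nat.mod (Nat.mul P rho) (251 ^ 49)) mem = false := by
        intro rho hrho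
        refine ih (r.set k 2) _ mem hlen hct ?_ hmem'
        rw [Prd_set A B r hr k 2 hk1 hk2]
        exact ratio_step A B _ k rho P hk1 hP1 hrho
      have hbit := hmem k hk1 hk2
      rw [hrk, Nat.testBit_eq_decide_div_mod_eq, decide_eq_true_eq] at hbit
      have hbit' : mem / 2 ^ k % 2 = 1 ↔ A k = 1 := by
        rw [hbit]; simp
      rcases hA k with hAk | hAk
      · have hb : Nat.beq (Nat.mod (Nat.div mem dA) 2) 1 = true := by
          have : Nat.mod (Nat.div mem dA) 2 = 1 := by rw [hdA]; exact hbit'.mpr hAk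
          rw [this]; rfl
        rw [dfs, hb]
        simp only [force_eq]
        rcases hB k with hBk | hBk
        · rw [step pp (by rw [hAk, hBk]; exact cpp)]; rfl
        · rw [step pm (by rw [hAk, hBk]; exact cpm)]; exact Bool.and_false _
      · have hb : Nat.beq (Nat.mod (Nat.div mem dA) 2) 1 = false := by
          have h1 : ¬ (mem / 2 ^ k % 2 = 1) := by
            intro h
            have := hbit'.mp h
            rw [hAk] at this
            norm_num at this
          have : Nat.mod (Nat.div mem dA) 2 = 0 := by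
            rw [hdA]; change mem / 2 ^ k % 2 = 0; omega
          rw [this]; rfl
        rw [dfs, hb]
        simp only [force_eq]
        rcases hB k with hBk | hBk
        · rw [step mp (by rw [hAk, hBk]; exact cmp)]; rfl
        · rw [step mm (by rw [hAk, hBk]; exact cmm)]; exact Bool.and_false _
    | one m p np o q add =>
      simp only [chk, Bool.and_eq_true, decide_eq_true_eq, List.all_eq_true, List.mem_range] at hchk
      obtain ⟨⟨⟨⟨⟨⟨⟨⟨⟨hm1, hm2⟩, hrm⟩, hp⟩, hnp⟩, ho⟩, hq⟩, hadd⟩, hall⟩, hct⟩ := hchk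
      have hlen : (r.set m 1).length = 49 := by rw [List.length_set, hr]
      have hF : Prd A B (r.set m 1) = Prd A B r * (1 + C (A m) * X ^ m) := by
        rw [Prd_set A B r hr m 1 hm1 hm2, Prd_eq A B r m hm1 hm2, hrm]
        simp [fp]
      have hF0 : coeff 0 (Prd A B r) = 1 :=
        coeff_zero_prod _ _ fun k hk => coeff_zero_fp A B k _ (mem_Icc.mp hk).1
      have hagree : ∀ n ≤ m, coeff n (Prd A B (r.set m 1))
          = coeff n (∏ k ∈ Icc 1 48, fac (pat A B) k) := by
        refine coeff_prod_congr _ _ _ m fun k hk n hn => ?_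
        have hk' := mem_Icc.mp hk
        have h1 := hall (k - 1) (by omega)
        rw [show k - 1 + 1 = k by omega] at h1
        exact coeff_fp_eq A B k _ m hk'.1 h1 n hn
      have hv : ∀ i ≤ m, |coeff i (Prd A B (r.set m 1))| ≤ 1 := by
        intro i hi
        rw [hagree i hi]
        exact hval i (by omega)
      have htest := digit_test (Prd A B r) (Prd A B (r.set m 1)) m P (A m) hm1 hm2 hF hF0 hv hP
      rw [dfs]
      simp only [force_eq]
      rw [hp, ho, hq]
      rcases hA m with hAm | hAm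
      · rw [htest.1 hAm]
        have : dfs (251 ^ 49) t (Nat.mod (Nat.add P (Nat.mul P (251 ^ m))) (251 ^ 49))
            (Nat.lor mem add) = false := by
          refine ih (r.set m 1) _ _ hlen hct ?_ ?_
          · rw [hF]
            refine one_step _ m (251 ^ m) P (A m) ?_ hP
            rw [hAm]; push_cast; rw [one_mul]
          · intro j hj1 hj2
            change (mem ||| add).testBit j = true ↔ _
            rw [Nat.testBit_or, Bool.or_eq_true, hmem j hj1 hj2, hadd]
            by_cases hjm : j = m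
            · subst hjm
              rw [getD_set_self r j 1 (by omega)]
              simp [hAm]
            · rw [getD_set_ne r m j 1 hjm, Nat.testBit_two_pow_of_ne (Ne.symm hjm)]
              simp
        simp only [this]
        rfl
      · rw [htest.2 hAm]
        have : dfs (251 ^ 49) t (Nat.mod (Nat.add P (Nat.mul P np)) (251 ^ 49)) mem = false := by
          refine ih (r.set m 1) _ _ hlen hct ?_ ?_
          · rw [hF]
            refine one_step _ m np P (A m) ?_ hP
            rw [hAm, Int.modEq_iff_dvd]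
            have h1 : ((251 : ℤ) ^ 49) ∣ ((np + 251 ^ m : ℕ) : ℤ) := by
              have h2 : (251 ^ 49 : ℕ) ∣ np + 251 ^ m := Nat.dvd_of_mod_eq_zero hnp
              exact_mod_cast h2
            have h3 : -1 * (251 : ℤ) ^ m - np = -((np + 251 ^ m : ℕ) : ℤ) := by push_cast; ring
            rw [h3, dvd_neg]
            exact h1
          · intro j hj1 hj2
            rw [hmem j hj1 hj2]
            by_cases hjm : j = m
            · subst hjm
              rw [getD_set_self r j 1 (by omega), hAm, hrm]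
              norm_num
            · rw [getD_set_ne r m j 1 hjm]
        simp only [this]
        exact Bool.and_false _

/-- all counts zero -/
def r0 : List ℕ := List.replicate 49 0

theorem Prd_r0 : Prd A B r0 = 1 := by
  rw [Prd]
  refine prod_eq_one fun k hk => ?_
  have : r0.getD k 0 = 0 := by
    rw [r0, List.getD_eq_getElem?_getD]
    by_cases h : k < 49
    · rw [List.getElem?_replicate_of_lt h]; rfl
    · rw [List.getElem?_eq_none (by simp; omega)]; rfl
  rw [this]
  simp [fp]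

theorem no_pattern (evs : List Ev) (hchk : chk evs r0 = true) (hdfs : dfs (251 ^ 49) evs 1 0 = true)
    (hA : ∀ k, A k = 1 ∨ A k = -1) (hB : ∀ k, B k = 1 ∨ B k = -1) :
    ∃ m ≤ 48, 2 ≤ |coeff m (∏ k ∈ Icc 1 48, fac (pat A B) k)| := by
  by_contra hcon
  push Not at hcon
  have hval : ∀ m ≤ 48, |coeff m (∏ k ∈ Icc 1 48, fac (pat A B) k)| ≤ 1 := by
    intro m hm
    have := hcon m hm
    omega
  have h := sound A B hA hB hval evs r0 1 0 (by simp [r0]) hchk (by
    rw [Prd_r0]; exact (E_one 49).symm) (by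
    intro k hk1 hk2
    have : r0.getD k 0 = 0 := by
      rw [r0, List.getD_eq_getElem?_getD, List.getElem?_replicate_of_lt (by omega)]; rfl
    rw [this]
    simp)
  rw [h] at hdfs
  exact absurd hdfs (by simp)


end sound

end Pool.Agent.H56.SignSearch
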