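import Mathlib

set_option autoImplicit false

open Finset

namespace Pool.Agent.H56.Window

/-- `Good J W β`: all members of `J` divide `W` and every natural number `a` with
`β W ≤ a < 2 W` is a sum of distinct codivisors `W / j`, `j ∈ J`. -/
structure Good (J : Finset ℕ) (W : ℕ) (β : ℝ) : Prop where
  pos : 0 < W
  dvd : ∀ j ∈ J, j ∣ W
  rep : ∀ a : ℕ, β * W ≤ a → a < 2 * W → ∃ S ⊆ J, ∑ j ∈ S, W / j = a

lemma Good.mono {J : Finset ℕ} {W : ℕ} {β β' : ℝ} (h : Good J W β) (hb : β ≤ β') :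
    Good J W β' :=
  ⟨h.pos, h.dvd, fun a h1 h2 => h.rep a (le_trans (by gcongr) h1) h2⟩

lemma good_base (s : ℕ) : ∃ J : Finset ℕ, Good J (2 ^ s) 0 ∧ ∀ j ∈ J, j ≤ 2 ^ s := by
  induction s with
  | zero =>
    refine ⟨{1}, ⟨by norm_num, by simp, fun a _ h => ?_⟩, by simp⟩
    have h' : a < 2 := by simpa using h
    interval_cases a
    · exact ⟨∅, by simp, by simp⟩
    · exact ⟨{1}, by simp, by simp⟩
  | succ s ih =>
    obtain ⟨J, hJ, hle⟩ := ih
    refine ⟨insert (2 ^ (s + 1)) J, ⟨by positivity, ?_, fun a _ h => ?_⟩, ?_⟩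
    · intro j hj
      rcases Finset.mem_insert.1 hj with rfl | hj
      · exact dvd_rfl
      · exact (hJ.dvd j hj).trans (pow_dvd_pow 2 (Nat.le_succ s))
    · obtain ⟨S, hS, hsum⟩ := hJ.rep (a / 2) (by rw [zero_mul]; positivity)
        (by rw [pow_succ] at h; omega)
      have hnot : 2 ^ (s + 1) ∉ S := fun hmem => by
        have := hle _ (hS hmem)
        rw [pow_succ] at this
        have : 0 < 2 ^ s := by positivity
        omega
      have hsum2 : ∑ j ∈ S, 2 ^ (s + 1) / j = 2 * (a / 2) := by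
        rw [← hsum, Finset.mul_sum]
        refine Finset.sum_congr rfl fun j hj => ?_
        rw [pow_succ, mul_comm, Nat.mul_div_assoc _ (hJ.dvd j (hS hj))]
      rcases Nat.even_or_odd a with he | ho
      · refine ⟨S, hS.trans (Finset.subset_insert _ _), ?_⟩
        rw [hsum2]
        have := Nat.even_iff.1 he
        omega
      · refine ⟨insert (2 ^ (s + 1)) S, Finset.insert_subset_insert _ hS, ?_⟩
        rw [Finset.sum_insert hnot, hsum2, Nat.div_self (by positivity)]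
        have := Nat.odd_iff.1 ho
        omega
    · intro j hj
      rcases Finset.mem_insert.1 hj with rfl | hj
      · exact le_rfl
      · exact (hle j hj).trans (Nat.pow_le_pow_right (by norm_num) (Nat.le_succ s))

/-- adjoin one prime -/
lemma good_step {J₀ J : Finset ℕ} {W₀ W : ℕ} {β : ℝ} {q : ℕ} (h₀ : Good J₀ W₀ 1)
    (h : Good J W β) (hβ : 0 ≤ β) (hdvd : W₀ ∣ W) (hq : q.Prime) (hqW : ¬ q ∣ W) (hle : q ≤ W₀) :
    Good (J ∪ J₀.image fun j => q * j) (W * q) (β + 2 / q) := by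
  have hq0 : 0 < q := hq.pos
  have hW : 0 < W := h.pos
  have hW₀ : 0 < W₀ := h₀.pos
  obtain ⟨V, hV⟩ := hdvd
  have hVpos : 0 < V := by
    rcases Nat.eq_zero_or_pos V with h0 | h0
    · rw [h0, mul_zero] at hV; omega
    · exact h0
  have hVq : Nat.Coprime V q := by
    rw [Nat.coprime_comm]
    exact (Nat.Prime.coprime_iff_not_dvd hq).2 fun hd => hqW (hV ▸ dvd_mul_of_dvd_right hd _)
  refine ⟨by positivity, ?_, fun a h1 h2 => ?_⟩
  · intro j hj
    rcases Finset.mem_union.1 hj with hj | hj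
    · exact (h.dvd j hj).mul_right q
    · obtain ⟨i, hi, rfl⟩ := Finset.mem_image.1 hj
      rw [mul_comm]
      exact Nat.mul_dvd_mul ((h₀.dvd i hi).trans ⟨V, hV⟩) dvd_rfl
  · -- choose `b ∈ [W₀, 2 W₀)` with `V b ≡ a mod q`
    obtain ⟨b, hb1, hb2, hb3⟩ : ∃ b, W₀ ≤ b ∧ b < 2 * W₀ ∧ V * b ≡ a [MOD q] := by
      obtain ⟨c, hc⟩ : ∃ c, V * c ≡ a [MOD q] := by
        obtain ⟨c, hc⟩ := Nat.exists_mul_mod_eq_one_of_coprime hVq hq.one_lt
        refine ⟨c * a, ?_⟩
        rw [← mul_assoc]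
        have : V * c ≡ 1 [MOD q] := by
          rw [Nat.ModEq, hc.2, Nat.mod_eq_of_lt hq.one_lt]
        simpa using this.mul_right a
      -- shift `c` into the window
      obtain ⟨d, hd1, hd2⟩ : ∃ d, W₀ + d ≡ c [MOD q] ∧ d < q := by
        refine ⟨(c + (q - W₀ % q)) % q, ?_, Nat.mod_lt _ hq0⟩
        have h3 : W₀ % q < q := Nat.mod_lt _ hq0
        have h4 : W₀ + (c + (q - W₀ % q)) ≡ c [MOD q] := by
          have h5 : W₀ + (c + (q - W₀ % q)) = c + q * (W₀ / q + 1) := by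
            have := Nat.div_add_mod W₀ q
            rw [Nat.mul_add, mul_one]
            omega
          rw [h5]
          exact (Nat.modEq_iff_dvd' (by omega)).2 (by simp) |>.symm
        exact ((Nat.ModEq.refl W₀).add (Nat.mod_modEq _ _)).trans h4
      refine ⟨W₀ + d, by omega, by omega, (Nat.ModEq.mul_left V hd1).trans hc⟩
    obtain ⟨S, hS, hSsum⟩ := h₀.rep b (by rw [one_mul]; exact_mod_cast hb1) hb2
    have hb2' : (b : ℝ) ≤ 2 * W₀ := by exact_mod_cast hb2.le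
    have hWR : (W : ℝ) = W₀ * V := by exact_mod_cast hV
    have hVb : (V : ℝ) * b ≤ 2 * W := by
      rw [hWR]
      have : (0 : ℝ) ≤ V := Nat.cast_nonneg _
      nlinarith
    have hqR : (0 : ℝ) < q := by exact_mod_cast hq0
    have h1' : β * W * q + 2 * W ≤ a := by
      have : (β + 2 / q) * ((W * q : ℕ) : ℝ) = β * W * q + 2 * W := by
        push_cast
        field_simp
      rw [this] at h1
      exact h1
    have hge : V * b ≤ a := by
      have : (V : ℝ) * b ≤ a := by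
        have h6 : 0 ≤ β * W * q := by positivity
        linarith
      exact_mod_cast this
    obtain ⟨c, hc⟩ : q ∣ a - V * b := (Nat.modEq_iff_dvd' hge).1 hb3
    have hac : a = V * b + q * c := by omega
    have hacR : (a : ℝ) = V * b + q * c := by exact_mod_cast hac
    obtain ⟨T, hT, hTsum⟩ := h.rep c (by
      have h7 : β * W * q ≤ c * q := by rw [hacR] at h1'; linarith
      exact le_of_mul_le_mul_right h7 hqR) (by
      have h8 : q * c < q * (2 * W) := by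
        have : q * c ≤ a := by omega
        calc q * c ≤ a := this
          _ < 2 * (W * q) := h2
          _ = q * (2 * W) := by ring
      exact Nat.lt_of_mul_lt_mul_left h8)
    refine ⟨T ∪ S.image fun j => q * j, Finset.union_subset_union hT
      (Finset.image_subset_image hS), ?_⟩
    have hdisj : Disjoint T (S.image fun j => q * j) := by
      rw [Finset.disjoint_left]
      intro j hj hj'
      obtain ⟨i, hi, rfl⟩ := Finset.mem_image.1 hj'
      exact hqW ((dvd_mul_right q i).trans (h.dvd _ (hT hj)))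
    rw [Finset.sum_union hdisj, Finset.sum_image (fun x _ y _ hxy => by
      exact Nat.eq_of_mul_eq_mul_left hq0 hxy)]
    have e1 : ∑ j ∈ T, W * q / j = q * c := by
      rw [← hTsum, Finset.mul_sum]
      refine Finset.sum_congr rfl fun j hj => ?_
      rw [mul_comm W q, Nat.mul_div_assoc _ (h.dvd j (hT hj))]
    have e2 : ∑ j ∈ S, W * q / (q * j) = V * b := by
      rw [← hSsum, Finset.mul_sum]
      refine Finset.sum_congr rfl fun j hj => ?_
      rw [mul_comm W q, Nat.mul_div_mul_left _ _ hq0, hV, mul_comm W₀ V,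
        Nat.mul_div_assoc _ (h₀.dvd j (hS hj))]
    rw [e1, e2]
    omega

/-- adjoin a finite set of primes -/
lemma good_primes {J₀ : Finset ℕ} {W₀ : ℕ} {β₀ : ℝ} (hβ : 0 ≤ β₀) (hβ1 : β₀ ≤ 1)
    (h₀ : Good J₀ W₀ β₀) (Q : Finset ℕ) (hQ : ∀ q ∈ Q, q.Prime ∧ ¬ q ∣ W₀ ∧ q ≤ W₀) :
    ∃ J : Finset ℕ, Good J (W₀ * ∏ q ∈ Q, q) (β₀ + 2 * ∑ q ∈ Q, (1 : ℝ) / q) ∧
      ∀ j ∈ J, j ∈ J₀ ∨ ∃ q ∈ Q, ∃ i ∈ J₀, j = q * i := by
  classical
  induction Q using Finset.induction_on with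
  | empty => exact ⟨J₀, by simpa using h₀, fun j hj => Or.inl hj⟩
  | insert q Q hqQ ih =>
    obtain ⟨J, hJ, hmem⟩ := ih fun p hp => hQ p (Finset.mem_insert_of_mem hp)
    obtain ⟨hq, hqW, hle⟩ := hQ q (Finset.mem_insert_self _ _)
    refine ⟨J ∪ J₀.image fun j => q * j, ?_, ?_⟩
    · have hnd : ¬ q ∣ W₀ * ∏ p ∈ Q, p := by
        rw [hq.dvd_mul, not_or]
        refine ⟨hqW, fun hd => ?_⟩
        obtain ⟨p, hp, hpd⟩ := (Prime.dvd_finsetProd_iff hq.prime _).1 hd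
        have := (Nat.prime_dvd_prime_iff_eq hq (hQ p (Finset.mem_insert_of_mem hp)).1).1 hpd
        exact hqQ (this ▸ hp)
      have key := good_step (h₀.mono hβ1) hJ (by positivity) (dvd_mul_right _ _) hq hnd hle
      have e1 : W₀ * ∏ p ∈ insert q Q, p = (W₀ * ∏ p ∈ Q, p) * q := by
        rw [Finset.prod_insert hqQ]; ring
      have e2 : β₀ + 2 * ∑ p ∈ insert q Q, (1 : ℝ) / p =
          β₀ + 2 * ∑ p ∈ Q, (1 : ℝ) / p + 2 / q := by
        rw [Finset.sum_insert hqQ]; ring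
      rw [e1, e2]
      exact key
    · intro j hj
      rcases Finset.mem_union.1 hj with hj | hj
      · rcases hmem j hj with h | ⟨p, hp, i, hi, rfl⟩
        · exact Or.inl h
        · exact Or.inr ⟨p, Finset.mem_insert_of_mem hp, i, hi, rfl⟩
      · obtain ⟨i, hi, rfl⟩ := Finset.mem_image.1 hj
        exact Or.inr ⟨q, Finset.mem_insert_self _ _, i, hi, rfl⟩

/-- the resulting near miss -/
lemma near_miss {J₀ : Finset ℕ} {W₀ : ℕ} {β₀ : ℝ} (hβ : 0 ≤ β₀)
    (h₀ : Good J₀ W₀ β₀) (Q : Finset ℕ) (hQ : ∀ q ∈ Q, q.Prime ∧ ¬ q ∣ W₀ ∧ q ≤ W₀)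
    (hne : Q.Nonempty) (hsum : β₀ + 2 * ∑ q ∈ Q, (1 : ℝ) / q ≤ 1 / 2) :
    ∃ S : Finset ℕ, (∀ j ∈ S, 0 < j ∧ (j ∈ J₀ ∨ ∃ q ∈ Q, ∃ i ∈ J₀, j = q * i)) ∧
      ∑ j ∈ S, (1 : ℝ) / j = 1 - 1 / ((∏ q ∈ Q, q : ℕ) : ℝ) := by
  have hpos : ∀ q ∈ Q, 0 < q := fun q hq => (hQ q hq).1.pos
  have hs0 : 0 ≤ ∑ q ∈ Q, (1 : ℝ) / q := Finset.sum_nonneg fun q _ => by positivity
  obtain ⟨J, hJ, hmem⟩ := good_primes hβ (by linarith) h₀ Q hQ
  set P := ∏ q ∈ Q, q with hP
  have hP2 : 2 ≤ P := by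
    obtain ⟨q, hq⟩ := hne
    have h1 : q ∣ P := Finset.dvd_prod_of_mem _ hq
    have h2 : 0 < P := Finset.prod_pos hpos
    exact (hQ q hq).1.two_le.trans (Nat.le_of_dvd h2 h1)
  have hW₀ : 0 < W₀ := h₀.pos
  have hPR : (2 : ℝ) ≤ P := by exact_mod_cast hP2
  have hWR : (0 : ℝ) < W₀ := by exact_mod_cast hW₀
  obtain ⟨S, hS, hSsum⟩ := hJ.rep (W₀ * P - W₀) (by
    have hle : W₀ ≤ W₀ * P := Nat.le_mul_of_pos_right _ (by omega)
    rw [Nat.cast_sub hle]
    push_cast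
    have h3 : (β₀ + 2 * ∑ q ∈ Q, (1 : ℝ) / q) * (W₀ * P) ≤ 1 / 2 * (W₀ * P) := by gcongr
    nlinarith) (by
    have : 0 < W₀ * P := by positivity
    omega)
  refine ⟨S, fun j hj => ⟨Nat.pos_of_ne_zero fun h0 => ?_, hmem j (hS hj)⟩, ?_⟩
  · have := hJ.dvd j (hS hj)
    rw [h0, zero_dvd_iff] at this
    exact absurd this (by positivity)
  · have hle : W₀ ≤ W₀ * P := Nat.le_mul_of_pos_right _ (by omega)
    have e : ∑ j ∈ S, ((W₀ * P / j : ℕ) : ℝ) = ((W₀ * P - W₀ : ℕ) : ℝ) := by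
      rw [← hSsum]; push_cast; rfl
    rw [Nat.cast_sub hle] at e
    push_cast at e
    have e2 : ∑ j ∈ S, ((W₀ * P / j : ℕ) : ℝ) = (W₀ * P) * ∑ j ∈ S, (1 : ℝ) / j := by
      rw [Finset.mul_sum]
      refine Finset.sum_congr rfl fun j hj => ?_
      have hd := hJ.dvd j (hS hj)
      have hj0 : (j : ℝ) ≠ 0 := by
        intro h0
        have h0' : j = 0 := by exact_mod_cast h0
        rw [h0', zero_dvd_iff] at hd
        exact absurd hd (by positivity)
      rw [Nat.cast_div hd hj0]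
      push_cast
      ring
    have e3 : (W₀ * P : ℝ) * ∑ j ∈ S, (1 : ℝ) / j = W₀ * P - W₀ := by
      rw [← e2]; exact_mod_cast e
    have hP0 : (P : ℝ) ≠ 0 := by positivity
    field_simp
    have : (W₀ : ℝ) * (P * ∑ j ∈ S, (1 : ℝ) / j) = W₀ * (P - 1) := by rw [← mul_assoc, e3]; ring
    rw [mul_comm (P : ℝ)] at this
    exact mul_left_cancel₀ hWR.ne' this

end Pool.Agent.H56.Window
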