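import Mathlib
import Pool.Agent.H56.Window

set_option autoImplicit false

open Finset Filter Topology Real

namespace Pool.Agent.H56.Window

/-- primes in `(z/4, z]` -/
noncomputable def PW (z : ℝ) : Finset ℕ := (Finset.Ioc 0 ⌊z⌋₊).filter fun q => q.Prime ∧ z / 4 < q

lemma mem_PW {z : ℝ} (hz : 0 ≤ z) {q : ℕ} : q ∈ PW z ↔ q.Prime ∧ z / 4 < q ∧ (q : ℝ) ≤ z := by
  unfold PW
  rw [Finset.mem_filter, Finset.mem_Ioc, Nat.le_floor_iff hz]
  constructor
  · rintro ⟨⟨-, h1⟩, h2, h3⟩
    exact ⟨h2, h3, h1⟩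
  · rintro ⟨h1, h2, h3⟩
    exact ⟨⟨h1.pos, h3⟩, h1, h2⟩

lemma isLittleO_sqrt_mul_log : (fun z : ℝ => √z * Real.log z) =o[atTop] (fun z : ℝ => z) := by
  have h1 : (fun z : ℝ => Real.log z) =o[atTop] (fun z : ℝ => z ^ (1 / 2 : ℝ)) :=
    isLittleO_log_rpow_atTop (by norm_num)
  have h2 : (fun z : ℝ => √z * Real.log z) =o[atTop] (fun z : ℝ => √z * z ^ (1 / 2 : ℝ)) :=
    (Asymptotics.isBigO_refl _ _).mul_isLittleO h1
  refine h2.congr' EventuallyEq.rfl ?_
  filter_upwards [eventually_ge_atTop 0] with z hz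
  rw [← Real.sqrt_eq_rpow, Real.mul_self_sqrt hz]

lemma PW_prod : ∀ᶠ z : ℝ in atTop, Real.exp (3 / 10 * z) ≤ ((∏ q ∈ PW z, q : ℕ) : ℝ) := by
  have h1 := isLittleO_sqrt_mul_log.bound (show (0 : ℝ) < 1 / 100 by norm_num)
  have h2 := Real.isLittleO_log_id_atTop.bound (show (0 : ℝ) < 1 / 100 by norm_num)
  filter_upwards [h1, (tendsto_atTop_add_const_right atTop (2 : ℝ) tendsto_id).eventually h2,
    eventually_ge_atTop 1000] with z hz1 hz2 hz3
  have hz0 : 0 ≤ z := by linarith
  have hsq : 0 ≤ √z * Real.log z := mul_nonneg (Real.sqrt_nonneg z) (Real.log_nonneg (by linarith))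
  rw [Real.norm_of_nonneg hsq, Real.norm_of_nonneg hz0] at hz1
  simp only [id_eq] at hz2
  rw [Real.norm_of_nonneg (Real.log_nonneg (by linarith : (1 : ℝ) ≤ z + 2)),
    Real.norm_of_nonneg (by linarith : (0 : ℝ) ≤ z + 2)] at hz2
  have hge := Chebyshev.theta_ge' (x := z) (by linarith)
  have hle := Chebyshev.theta_le_log4_mul_x (x := z / 4) (by linarith)
  have h4 : Real.log 4 = 2 * Real.log 2 := by
    rw [show (4 : ℝ) = 2 ^ 2 by norm_num, Real.log_pow]; norm_num
  have hlog2 := Real.log_two_gt_d9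
  have hlog2' := Real.log_two_lt_d9
  have hsum : Chebyshev.theta z - Chebyshev.theta (z / 4) ≤ ∑ q ∈ PW z, Real.log q := by
    rw [Chebyshev.theta, Chebyshev.theta, sub_le_iff_le_add]
    rw [← Finset.sum_union]
    · refine Finset.sum_le_sum_of_subset_of_nonneg ?_ fun q hq _ => ?_
      · intro q hq
        rw [Finset.mem_filter, Finset.mem_Ioc] at hq
        rw [Finset.mem_union, PW, Finset.mem_filter, Finset.mem_filter, Finset.mem_Ioc,
          Finset.mem_Ioc]
        by_cases hc : z / 4 < q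
        · exact Or.inl ⟨hq.1, hq.2, hc⟩
        · exact Or.inr ⟨⟨hq.1.1, Nat.le_floor (not_lt.1 hc)⟩, hq.2⟩
      · exact Real.log_natCast_nonneg q
    · rw [Finset.disjoint_left]
      intro q hq hq'
      rw [PW, Finset.mem_filter] at hq
      rw [Finset.mem_filter, Finset.mem_Ioc] at hq'
      have := (Nat.le_floor_iff (by linarith)).1 hq'.1.2
      linarith [hq.2.2]
  have hpos : ∀ q ∈ PW z, (q : ℝ) ≠ 0 := fun q hq => by
    have := ((mem_PW hz0).1 hq).1.pos
    positivity
  rw [← Real.le_log_iff_exp_le]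
  · push_cast
    rw [Real.log_prod hpos]
    nlinarith
  · have : 0 < ∏ q ∈ PW z, q := Finset.prod_pos fun q hq => ((mem_PW hz0).1 hq).1.pos
    exact_mod_cast this

lemma PW_sum {ε : ℝ} (hε : 0 < ε) : ∀ᶠ z : ℝ in atTop, ∑ q ∈ PW z, (1 : ℝ) / q ≤ ε := by
  have h1 := Chebyshev.eventually_primeCounting_le (show (0 : ℝ) < 1 by norm_num)
  have h2 : ∀ᶠ z : ℝ in atTop, 4 * (Real.log 4 + 1) / ε ≤ Real.log z :=
    Real.tendsto_log_atTop.eventually_ge_atTop _
  filter_upwards [h1, h2, eventually_gt_atTop 1] with z hz1 hz2 hz3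
  have hz0 : 0 < z := by linarith
  have hlog : 0 < Real.log z := Real.log_pos hz3
  have hle : ∑ q ∈ PW z, (1 : ℝ) / q ≤ ∑ q ∈ PW z, 4 / z := by
    refine Finset.sum_le_sum fun q hq => ?_
    have h3 := ((mem_PW hz0.le).1 hq).2.1
    have h4 : 0 < z / 4 := by positivity
    rw [div_le_div_iff₀ (h4.trans h3) hz0]
    linarith
  have hcard : ((PW z).card : ℝ) ≤ (Nat.primeCounting ⌊z⌋₊ : ℝ) := by
    have : (PW z).card ≤ Nat.primeCounting ⌊z⌋₊ := by
      rw [← Nat.primesLE_card_eq_primeCounting]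
      refine Finset.card_le_card fun q hq => ?_
      have h5 := (mem_PW hz0.le).1 hq
      rw [Nat.mem_primesLE]
      exact ⟨Nat.le_floor h5.2.2, h5.1⟩
    exact_mod_cast this
  rw [Finset.sum_const, nsmul_eq_mul] at hle
  refine hle.trans ?_
  have h6 : ((PW z).card : ℝ) * (4 / z) ≤ (Real.log 4 + 1) * z / Real.log z * (4 / z) := by
    gcongr
    exact hcard.trans hz1
  refine h6.trans ?_
  have h7 : (Real.log 4 + 1) * z / Real.log z * (4 / z) = 4 * (Real.log 4 + 1) / Real.log z := by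
    field_simp
  rw [h7, div_le_iff₀ hlog]
  rw [div_le_iff₀ hε] at hz2
  linarith

/-- `Scale G`: for all large `w` there is a good window of weight at least `e^w` whose members
are at most `G w`. -/
def Scale (G : ℝ → ℝ) : Prop := ∀ ε : ℝ, 0 < ε → ∀ᶠ w : ℝ in atTop,
  ∃ (J : Finset ℕ) (W : ℕ), Good J W ε ∧ Real.exp w ≤ W ∧ (∀ j ∈ J, (j : ℝ) ≤ G w) ∧
    ∀ p : ℕ, p.Prime → p ∣ W → (p : ℝ) ≤ 4 * w

lemma scale_base : Scale fun w => 2 * Real.exp w := by
  intro ε hε
  filter_upwards [eventually_ge_atTop 1] with w hw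
  set s : ℕ := ⌈w / Real.log 2⌉₊ with hs
  have hl2 : 0 < Real.log 2 := Real.log_pos (by norm_num)
  obtain ⟨J, hJ, hle⟩ := good_base s
  have h1 : w ≤ s * Real.log 2 := by
    rw [← div_le_iff₀ hl2]
    exact Nat.le_ceil _
  have h2 : s * Real.log 2 ≤ w + Real.log 2 := by
    have h3 : (s : ℝ) < w / Real.log 2 + 1 := Nat.ceil_lt_add_one (by positivity)
    have h4 : (s : ℝ) * Real.log 2 ≤ (w / Real.log 2 + 1) * Real.log 2 := by gcongr
    have h5 : (w / Real.log 2 + 1) * Real.log 2 = w + Real.log 2 := by field_simp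
    linarith
  have hpow : ((2 ^ s : ℕ) : ℝ) = Real.exp (s * Real.log 2) := by
    push_cast
    rw [mul_comm, Real.exp_mul, Real.exp_log (by norm_num), Real.rpow_natCast]
  refine ⟨J, 2 ^ s, hJ.mono hε.le, ?_, fun j hj => ?_, fun p hp hpd => ?_⟩
  · rw [hpow]
    exact Real.exp_le_exp.2 h1
  · have h6 : (j : ℝ) ≤ ((2 ^ s : ℕ) : ℝ) := by exact_mod_cast hle j hj
    rw [hpow] at h6
    refine h6.trans ?_
    rw [show 2 * Real.exp w = Real.exp (w + Real.log 2) by
      rw [Real.exp_add, Real.exp_log (by norm_num)]; ring]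
    exact Real.exp_le_exp.2 h2
  · have h7 : p = 2 := (Nat.prime_dvd_prime_iff_eq hp Nat.prime_two).1 (hp.dvd_of_dvd_pow hpd)
    rw [h7]
    push_cast
    linarith

lemma scale_step {G : ℝ → ℝ} (hG : Scale G) : Scale fun w => 4 * w * G (Real.log (4 * w)) := by
  intro ε hε
  have hmul : Tendsto (fun w : ℝ => 4 * w) atTop atTop :=
    tendsto_id.const_mul_atTop (by norm_num)
  have hlog : Tendsto (fun w : ℝ => Real.log (4 * w)) atTop atTop :=
    Real.tendsto_log_atTop.comp hmul
  have hlo : ∀ᶠ w : ℝ in atTop, 4 * Real.log (4 * w) ≤ w := by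
    have h := Real.isLittleO_log_id_atTop.bound (show (0 : ℝ) < 1 / 16 by norm_num)
    filter_upwards [hmul.eventually h, eventually_ge_atTop 1] with w h1 h2
    simp only [id_eq] at h1
    rw [Real.norm_of_nonneg (Real.log_nonneg (by linarith)),
      Real.norm_of_nonneg (by linarith)] at h1
    linarith
  filter_upwards [hlog.eventually (hG (min (ε / 2) 1) (by positivity)), hmul.eventually PW_prod,
    hmul.eventually (PW_sum (show 0 < ε / 4 by positivity)), hlo, eventually_ge_atTop 1] with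
    w ⟨J, W, hJ, hW, hJG, hp⟩ hprod hsum hlo hw
  have hw4 : (0 : ℝ) ≤ 4 * w := by linarith
  have hexp : 4 * w ≤ W := by rwa [Real.exp_log (by linarith)] at hW
  have hQ : ∀ q ∈ PW (4 * w), q.Prime ∧ ¬ q ∣ W ∧ q ≤ W := by
    intro q hq
    obtain ⟨h1, h2, h3⟩ := (mem_PW hw4).1 hq
    refine ⟨h1, fun hd => ?_, ?_⟩
    · have := hp q h1 hd
      linarith
    · have : (q : ℝ) ≤ W := h3.trans hexp
      exact_mod_cast this
  obtain ⟨J', hJ', hmem⟩ := good_primes (by positivity) (min_le_right _ _) hJ (PW (4 * w)) hQ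
  have hWpos : 0 < W := hJ.pos
  refine ⟨J', W * ∏ q ∈ PW (4 * w), q, hJ'.mono ?_, ?_, fun j hj => ?_, fun p hpp hpd => ?_⟩
  · have := min_le_left (ε / 2) 1
    linarith
  · have h1 : (1 : ℝ) ≤ W := by exact_mod_cast hWpos
    have h2 : Real.exp w ≤ Real.exp (3 / 10 * (4 * w)) := Real.exp_le_exp.2 (by linarith)
    push_cast
    push_cast at hprod
    nlinarith [Real.exp_pos w]
  · have hnn : ∀ i ∈ J, (i : ℝ) ≤ G (Real.log (4 * w)) ∧ 0 ≤ G (Real.log (4 * w)) := fun i hi =>
      ⟨hJG i hi, (Nat.cast_nonneg i).trans (hJG i hi)⟩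
    rcases hmem j hj with hj | ⟨q, hq, i, hi, rfl⟩
    · obtain ⟨h1, h2⟩ := hnn j hj
      nlinarith
    · obtain ⟨h1, h2⟩ := hnn i hi
      obtain ⟨-, -, h3⟩ := (mem_PW hw4).1 hq
      push_cast
      gcongr
  · rcases (hpp.dvd_mul).1 hpd with hd | hd
    · have := hp p hpp hd
      linarith
    · obtain ⟨q, hq, hqd⟩ := (Prime.dvd_finsetProd_iff hpp.prime _).1 hd
      obtain ⟨h1, -, h3⟩ := (mem_PW hw4).1 hq
      rw [(Nat.prime_dvd_prime_iff_eq hpp h1).1 hqd]
      exact h3

/-- the scale functions -/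
noncomputable def Gk : ℕ → ℝ → ℝ
  | 0 => fun w => 2 * Real.exp w
  | k + 1 => fun w => 4 * w * Gk k (Real.log (4 * w))

lemma scale_Gk (k : ℕ) : Scale (Gk k) := by
  induction k with
  | zero => exact scale_base
  | succ k ih => exact scale_step ih

/-- near misses from a scale function -/
lemma near_miss_scale {G : ℝ → ℝ} (hG : Scale G)
    (hG1 : ∀ᶠ N : ℝ in atTop, 1 ≤ G (Real.log N))
    (hG2 : ∀ᶠ N : ℝ in atTop, 16 * Real.log N * G (Real.log N) ≤ N) :
    ∀ᶠ N : ℕ in atTop, ∃ S ⊆ Finset.Icc 1 N, ∃ Q : ℕ,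
      ∑ j ∈ S, (1 : ℝ) / j = 1 - 1 / (Q : ℝ) ∧
      Real.exp (3 / 10 * ((N : ℝ) / G (Real.log N))) ≤ Q := by
  have hcast : Tendsto (fun N : ℕ => (N : ℝ)) atTop atTop := tendsto_natCast_atTop_atTop
  have hlog : Tendsto (fun N : ℝ => Real.log N) atTop atTop := Real.tendsto_log_atTop
  have hy : Tendsto (fun N : ℝ => N / G (Real.log N)) atTop atTop := by
    refine tendsto_atTop_mono' atTop ?_ hlog
    filter_upwards [hG1, hG2, eventually_ge_atTop 1] with N h1 h2 h3
    have h4 : 0 ≤ Real.log N := Real.log_nonneg h3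
    rw [le_div_iff₀ (by linarith)]
    nlinarith
  filter_upwards [hcast.eventually (hlog.eventually (hG (1 / 4) (by norm_num))),
    hcast.eventually hG1, hcast.eventually hG2, hcast.eventually (hy.eventually PW_prod),
    hcast.eventually (hy.eventually (PW_sum (show (0 : ℝ) < 1 / 8 by norm_num))),
    hcast.eventually (eventually_gt_atTop 1),
    hcast.eventually (hy.eventually (eventually_ge_atTop 1))] with
    N ⟨J, W, hJ, hW, hJG, hp⟩ h1 h2 hprod hsum h3 hy1
  set g : ℝ := G (Real.log N) with hg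
  set y : ℝ := (N : ℝ) / g with hyd
  have hN0 : (0 : ℝ) < N := by linarith
  have hg0 : 0 < g := by linarith
  have hlogN : 0 ≤ Real.log N := Real.log_nonneg h3.le
  rw [Real.exp_log hN0] at hW
  have hyN : y ≤ N := div_le_self hN0.le h1
  have hy0 : 0 ≤ y := by positivity
  have hyl : 16 * Real.log N ≤ y := by
    rw [hyd, le_div_iff₀ hg0]
    exact h2
  have hQ : ∀ q ∈ PW y, q.Prime ∧ ¬ q ∣ W ∧ q ≤ W := by
    intro q hq
    obtain ⟨e1, e2, e3⟩ := (mem_PW hy0).1 hq
    refine ⟨e1, fun hd => ?_, ?_⟩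
    · have := hp q e1 hd
      linarith
    · have : (q : ℝ) ≤ W := (e3.trans hyN).trans hW
      exact_mod_cast this
  have hne : (PW y).Nonempty := by
    rw [Finset.nonempty_iff_ne_empty]
    intro he
    rw [he, Finset.prod_empty, Nat.cast_one, Real.exp_le_one_iff] at hprod
    have : 0 < y := by positivity
    linarith
  obtain ⟨S, hS, hsumS⟩ := near_miss (by norm_num) hJ (PW y) hQ hne (by linarith)
  refine ⟨S, fun j hj => ?_, _, hsumS, hprod⟩
  obtain ⟨hj0, hj1⟩ := hS j hj
  rw [Finset.mem_Icc]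
  refine ⟨hj0, ?_⟩
  have hjR : (j : ℝ) ≤ N := by
    rcases hj1 with hj1 | ⟨q, hq, i, hi, rfl⟩
    · refine (hJG j hj1).trans ?_
      have : g * 1 ≤ g * y := by gcongr
      have e4 : g * y = N := by rw [hyd]; field_simp
      linarith
    · obtain ⟨e1, e2, e3⟩ := (mem_PW hy0).1 hq
      have e4 : y * g = N := by rw [hyd]; field_simp
      push_cast
      rw [← e4]
      gcongr
      exact hJG i hi
  exact_mod_cast hjR

lemma tendsto_iterlog (i : ℕ) : Tendsto (fun w : ℝ => Real.log^[i] w) atTop atTop := by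
  induction i with
  | zero => exact tendsto_id
  | succ i ih =>
    have : (fun w : ℝ => Real.log^[i + 1] w) = fun w => Real.log (Real.log^[i] w) := by
      funext w
      rw [Function.iterate_succ_apply']
    rw [this]
    exact Real.tendsto_log_atTop.comp ih

lemma iterlog_le (i : ℕ) :
    ∀ᶠ w : ℝ in atTop, Real.log^[i] (Real.log (4 * w)) ≤ 2 * Real.log^[i + 1] w := by
  have hmul : Tendsto (fun w : ℝ => 4 * w) atTop atTop :=
    tendsto_id.const_mul_atTop (by norm_num)
  have hlog : Tendsto (fun w : ℝ => Real.log (4 * w)) atTop atTop :=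
    Real.tendsto_log_atTop.comp hmul
  induction i with
  | zero =>
    filter_upwards [eventually_ge_atTop 4] with w hw
    simp only [Function.iterate_zero, id_eq, Function.iterate_succ, Function.comp_apply]
    rw [Real.log_mul (by norm_num) (by linarith)]
    have := Real.log_le_log (by norm_num) hw
    linarith
  | succ i ih =>
    filter_upwards [ih, (tendsto_iterlog (i + 1)).eventually (eventually_ge_atTop 2),
      (((tendsto_iterlog i).comp hlog)).eventually (eventually_ge_atTop 2)] with w h1 h2 h3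
    rw [Function.iterate_succ_apply', Function.iterate_succ_apply' _ (i + 1)]
    simp only [Function.comp_apply] at h3
    have h4 := Real.log_le_log (by linarith) h1
    rw [Real.log_mul (x := 2) (y := Real.log^[i + 1] w) (by norm_num) (by linarith)] at h4
    have h5 := Real.log_le_log (by norm_num) h2
    linarith

lemma Gk_bound (k : ℕ) : ∃ C : ℝ, 0 < C ∧ ∀ᶠ w : ℝ in atTop, 1 ≤ Gk (k + 1) w ∧
    Gk (k + 1) w ≤ C * ((∏ i ∈ Finset.range (k + 1), Real.log^[i] w) * Real.log^[k] w) := by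
  have hmul : Tendsto (fun w : ℝ => 4 * w) atTop atTop :=
    tendsto_id.const_mul_atTop (by norm_num)
  have hlog : Tendsto (fun w : ℝ => Real.log (4 * w)) atTop atTop :=
    Real.tendsto_log_atTop.comp hmul
  induction k with
  | zero =>
    refine ⟨32, by norm_num, ?_⟩
    filter_upwards [eventually_ge_atTop 1] with w hw
    have : Gk (0 + 1) w = 32 * (w * w) := by
      simp only [Gk]
      rw [Real.exp_log (by linarith)]
      ring
    rw [this]
    simp only [zero_add, Finset.range_one, Finset.prod_singleton, Function.iterate_zero, id_eq]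
    constructor
    · nlinarith
    · exact le_rfl
  | succ k ih =>
    obtain ⟨C, hC, hb⟩ := ih
    refine ⟨4 * C * (2 ^ (k + 1) * 2), by positivity, ?_⟩
    have hall : ∀ᶠ w : ℝ in atTop, ∀ i ∈ Finset.range (k + 2),
        Real.log^[i] (Real.log (4 * w)) ≤ 2 * Real.log^[i + 1] w ∧
        0 ≤ Real.log^[i] (Real.log (4 * w)) ∧ 0 ≤ Real.log^[i + 1] w := by
      rw [Filter.eventually_all_finset]
      intro i _
      filter_upwards [iterlog_le i, ((tendsto_iterlog i).comp hlog).eventually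
        (eventually_ge_atTop 0), (tendsto_iterlog (i + 1)).eventually (eventually_ge_atTop 0)]
        with w h1 h2 h3
      exact ⟨h1, h2, h3⟩
    filter_upwards [hlog.eventually hb, hall, eventually_ge_atTop 1] with w ⟨h1, h2⟩ h3 hw
    have hG : Gk (k + 1 + 1) w = 4 * w * Gk (k + 1) (Real.log (4 * w)) := rfl
    constructor
    · rw [hG]
      nlinarith
    · rw [hG]
      have h4 : (∏ i ∈ Finset.range (k + 1), Real.log^[i] (Real.log (4 * w))) ≤
          ∏ i ∈ Finset.range (k + 1), (2 * Real.log^[i + 1] w) := by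
        refine Finset.prod_le_prod (fun i hi => ?_) fun i hi => ?_
        · exact (h3 i (Finset.mem_range.2 (by have := Finset.mem_range.1 hi; omega))).2.1
        · exact (h3 i (Finset.mem_range.2 (by have := Finset.mem_range.1 hi; omega))).1
      have h5 := h3 k (Finset.mem_range.2 (by omega))
      have h6 : (0 : ℝ) ≤ ∏ i ∈ Finset.range (k + 1), (2 * Real.log^[i + 1] w) := by
        refine Finset.prod_nonneg fun i hi => ?_
        have := (h3 i (Finset.mem_range.2 (by have := Finset.mem_range.1 hi; omega))).2.2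
        positivity
      calc 4 * w * Gk (k + 1) (Real.log (4 * w))
          ≤ 4 * w * (C * ((∏ i ∈ Finset.range (k + 1), Real.log^[i] (Real.log (4 * w))) *
            Real.log^[k] (Real.log (4 * w)))) := by gcongr
        _ ≤ 4 * w * (C * ((∏ i ∈ Finset.range (k + 1), (2 * Real.log^[i + 1] w)) *
            (2 * Real.log^[k + 1] w))) := by
          gcongr
          · exact h5.2.1
          · exact h5.1
        _ = 4 * C * (2 ^ (k + 1) * 2) *
            ((∏ i ∈ Finset.range (k + 1 + 1), Real.log^[i] w) * Real.log^[k + 1] w) := by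
          rw [Finset.prod_mul_distrib, Finset.prod_const, Finset.card_range,
            Finset.prod_range_succ' _ (k + 1)]
          simp only [Function.iterate_zero, id_eq]
          ring

lemma iterlog_le_self (i : ℕ) : ∀ᶠ w : ℝ in atTop, Real.log^[i] w ≤ w := by
  induction i with
  | zero => exact Eventually.of_forall fun w => le_rfl
  | succ i ih =>
    filter_upwards [ih, (tendsto_iterlog i).eventually (eventually_ge_atTop 0)] with w h1 h2
    rw [Function.iterate_succ_apply']
    exact (Real.log_le_self h2).trans h1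

/-- the product is at most a power of log -/
lemma prod_iterlog_le (k : ℕ) : ∀ᶠ w : ℝ in atTop,
    (∏ i ∈ Finset.range (k + 1), Real.log^[i] w) * Real.log^[k] w ≤ w ^ (k + 2) := by
  have hall : ∀ᶠ w : ℝ in atTop, ∀ i ∈ Finset.range (k + 1),
      Real.log^[i] w ≤ w ∧ 0 ≤ Real.log^[i] w := by
    rw [Filter.eventually_all_finset]
    intro i _
    filter_upwards [iterlog_le_self i, (tendsto_iterlog i).eventually (eventually_ge_atTop 0)]
      with w h1 h2
    exact ⟨h1, h2⟩
  filter_upwards [hall, eventually_ge_atTop 0] with w h1 hw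
  have h2 : (∏ i ∈ Finset.range (k + 1), Real.log^[i] w) ≤ ∏ i ∈ Finset.range (k + 1), w :=
    Finset.prod_le_prod (fun i hi => (h1 i hi).2) fun i hi => (h1 i hi).1
  rw [Finset.prod_const, Finset.card_range] at h2
  have h3 := h1 k (Finset.mem_range.2 (by omega))
  calc (∏ i ∈ Finset.range (k + 1), Real.log^[i] w) * Real.log^[k] w
      ≤ w ^ (k + 1) * w := by
        gcongr
        · exact h3.2
        · exact h3.1
    _ = w ^ (k + 2) := by ring

end Pool.Agent.H56.Window
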